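import Pool.Agent.TH145.MW.Blk

/-!
Height bound for the integral points.
-/

set_option autoImplicit false

open Finset FF Pool.Agent.W603.LV Pool.Agent.W603.PV

namespace Pool.Agent.TH145.MW

section defs

variable {R : Type*} [Field R] {q n : ℕ}

open Classical in
/-- The part of the sum `∑ b_j A_j(x) ^ d` given by the `j` such that `A_j(x)` is not zero and
`A_j(u) / A_j(x) - l` lies in `C`. -/
noncomputable def clsum (C : Set R) (A : Fin q → Fin (n + 1) → R) (x u : Fin (n + 1) → R)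
    (b : Fin q → R) (d : ℕ) (l : R) : R :=
  ∑ j with (A j ⬝ᵥ x ≠ 0 ∧ A j ⬝ᵥ u / A j ⬝ᵥ x - l ∈ C), b j * (A j ⬝ᵥ x) ^ d

/-- There are linearly independent `x` and `u` such that `A_j(x) = 0` implies `A_j(u) = 0`, and all
the parts (for the `b_a`), or all the parts except one (for the `c_a`), vanish. -/
def Bad {ι κ : Type*} (C : Set R) (A : Fin q → Fin (n + 1) → R) (b : ι → Fin q → R) (d : ι → ℕ)
    (c : κ → Fin q → R) (e : κ → ℕ) : Prop :=
  ∃ x u : Fin (n + 1) → R, LinearIndependent R ![x, u] ∧ (∀ j, A j ⬝ᵥ x = 0 → A j ⬝ᵥ u = 0) ∧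
    (∀ a l, clsum C A x u (b a) (d a) l = 0) ∧
    ∀ a, ∃ m, ∀ l, l - m ∉ C → clsum C A x u (c a) (e a) l = 0

end defs

theorem height_bound {k L : Type} [Field k] [Field L] [Algebra k L] [IsAlgClosed k] [CharZero k]
    [IsFF k L] {q n : ℕ} {ι κ : Type} [Finite ι] [Finite κ] (A : Fin q → Fin (n + 1) → L)
    (b : ι → Fin q → L) (d : ι → ℕ) (c : κ → Fin q → L) (e : κ → ℕ)
    (hd : ∀ a, 0 < d a ∧ (terms (b a) - 1) ^ 2 ≤ d a) (he : ∀ a, 0 < e a ∧ terms (c a) ^ 2 ≤ e a)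
    (hN : ¬ Bad (Set.range (algebraMap k L)) A b d c e) (S : Finset (Place k L)) :
    ∃ B : ℤ, 0 ≤ B ∧ ∀ x : Fin (n + 1) → L, x ≠ 0 → (∀ a, W A (b a) (d a) x = 0) →
      (∀ a, W A (c a) (e a) x ≠ 0 ∧ ∀ P ∉ S, (e a : ℤ) ∣ P.ord (W A (c a) (e a) x)) →
      ∀ i l, x i ≠ 0 → hgt k (x l / x i) ≤ B := by
  classical
  have := Fintype.ofFinite ι
  have := Fintype.ofFinite κ
  obtain ⟨S1, hS1⟩ := exists_supp (k := k) (Finset.univ : Finset (ι × Fin q))
    (fun p => b p.1 p.2)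
  obtain ⟨S2, hS2⟩ := exists_supp (k := k) (Finset.univ : Finset (κ × Fin q))
    (fun p => c p.1 p.2)
  obtain ⟨S', hS'⟩ : ∃ S', S' = S ∪ (S1 ∪ S2) := ⟨_, rfl⟩
  have hb0 : ∀ a, ∀ P ∉ S', ∀ j, P.ord (b a j) = 0 := by
    intro a P hP j
    by_contra h
    exact hP (by rw [hS']; exact Finset.mem_union_right _ (Finset.mem_union_left _
      (hS1 (a, j) (Finset.mem_univ _) P h)))
  have hc0 : ∀ a, ∀ P ∉ S', ∀ j, P.ord (c a j) = 0 := by
    intro a P hP j
    by_contra h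
    exact hP (by rw [hS']; exact Finset.mem_union_right _ (Finset.mem_union_right _
      (hS2 (a, j) (Finset.mem_univ _) P h)))
  have h1 := fun a => blk (hd a).1 A (b a) S' (hb0 a)
  have h2 := fun a => blk (he a).1 A (c a) S' (hc0 a)
  choose B1 hB1 h1 using h1
  choose B2 hB2 h2 using h2
  obtain ⟨B0, hB0⟩ : ∃ B0 : ℤ, B0 = ∑ a, B1 a + ∑ a, B2 a := ⟨_, rfl⟩
  have hs1 : 0 ≤ ∑ a, B1 a := Finset.sum_nonneg fun a _ => hB1 a
  have hs2 : 0 ≤ ∑ a, B2 a := Finset.sum_nonneg fun a _ => hB2 a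
  have hB00 : 0 ≤ B0 := by rw [hB0]; positivity
  have hB1le : ∀ a, B1 a ≤ B0 := by
    intro a
    have := Finset.single_le_sum (f := B1) (fun a _ => hB1 a) (Finset.mem_univ a)
    rw [hB0]; linarith
  have hB2le : ∀ a, B2 a ≤ B0 := by
    intro a
    have := Finset.single_le_sum (f := B2) (fun a _ => hB2 a) (Finset.mem_univ a)
    rw [hB0]; linarith
  obtain ⟨HA, hHA⟩ : ∃ HA : ℤ, HA = ∑ p : Fin q × Fin (n + 1), hgt k (A p.1 p.2) := ⟨_, rfl⟩
  have hHA0 : 0 ≤ HA := by rw [hHA]; exact Finset.sum_nonneg fun _ _ => hgt_nonneg _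
  have hHAle : ∀ j i, hgt k (A j i) ≤ HA := by
    intro j i
    rw [hHA]
    exact Finset.single_le_sum (f := fun p : Fin q × Fin (n + 1) => hgt k (A p.1 p.2))
      (fun _ _ => hgt_nonneg _) (Finset.mem_univ (j, i))
  obtain ⟨C, hC0, hC⟩ := cramer k L n
  refine ⟨C * (HA + (B0 + HA)), by positivity, ?_⟩
  intro x hx0 hxb hxc i l hi
  have h3 := fun a => h1 a x (Or.inl ⟨hxb a, (hd a).2⟩)
  have h4 := fun a => h2 a x (Or.inr ⟨(hxc a).1, (he a).2, fun P hP => (hxc a).2 P fun h =>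
    hP (by rw [hS']; exact Finset.mem_union_left _ h)⟩)
  choose R1 Sp1 hR1 hSp1 hSe1 hSn1 hT1 using h3
  choose R2 Sp2 hR2 hSp2 hSe2 hSn2 hT2 using h4
  let Act : Fin q → Fin q → Prop := fun i j => (∃ a, R1 a i j) ∨ (∃ a, R2 a i j) ∨
    ∃ a, Sp2 a i ∧ Sp2 a j
  have hAct : ∀ i j, Act i j → A i ⬝ᵥ x ≠ 0 ∧ A j ⬝ᵥ x ≠ 0 ∧
      hgt k (A i ⬝ᵥ x / A j ⬝ᵥ x) ≤ B0 := by
    rintro i j (⟨a, h⟩ | ⟨a, h⟩ | ⟨a, h, h'⟩)
    · obtain ⟨h5, h6, h7⟩ := hR1 a i j h
      exact ⟨h5, h6, h7.trans (hB1le a)⟩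
    · obtain ⟨h5, h6, h7⟩ := hR2 a i j h
      exact ⟨h5, h6, h7.trans (hB2le a)⟩
    · obtain ⟨h5, h6, h7⟩ := hSp2 a i j h h'
      exact ⟨h5, h6, h7.trans (hB2le a)⟩
  let N : (Fin q × Fin q) ⊕ Fin q → Fin (n + 1) → L := fun r =>
    Sum.elim (fun p => if Act p.1 p.2 then
      A p.1 - (A p.1 ⬝ᵥ x / A p.2 ⬝ᵥ x) • A p.2 else 0)
      (fun j => if A j ⬝ᵥ x = 0 then A j else 0) r
  refine hC _ N x _ (by positivity) ?_ ?_ ?_ i l hi
  · rintro (⟨i, j⟩ | j) t
    · simp only [N, Sum.elim_inl]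
      split_ifs with h
      · simp only [Pi.sub_apply, Pi.smul_apply, smul_eq_mul]
        rw [sub_eq_add_neg]
        refine (hgt_add_le _ _).trans ?_
        rw [hgt_neg]
        have h5 := hgt_mul_le (k := k) (A i ⬝ᵥ x / A j ⬝ᵥ x) (A j t)
        have h6 := (hAct i j h).2.2
        have h7 := hHAle i t
        have h8 := hHAle j t
        linarith
      · rw [Pi.zero_apply, hgt_zero]; positivity
    · simp only [N, Sum.elim_inr]
      split_ifs with h
      · have h8 := hHAle j t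
        linarith
      · rw [Pi.zero_apply, hgt_zero]; positivity
  · rintro (⟨i, j⟩ | j)
    · simp only [N, Sum.elim_inl]
      split_ifs with h
      · rw [sub_dotProduct, smul_dotProduct, smul_eq_mul, div_mul_cancel₀ _ (hAct i j h).2.1,
          sub_self]
      · exact zero_dotProduct _
    · simp only [N, Sum.elim_inr]
      split_ifs with h
      · exact h
      · exact zero_dotProduct _
  · intro y hy
    by_contra hcon
    push Not at hcon
    apply hN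
    have hlin : LinearIndependent L ![x, y] := by
      rw [LinearIndependent.pair_iff' hx0]
      exact fun a h => hcon a h.symm
    have hl : ∀ i j, Act i j → A i ⬝ᵥ y / A i ⬝ᵥ x = A j ⬝ᵥ y / A j ⬝ᵥ x := by
      intro i j h
      have h5 := hy (Sum.inl (i, j))
      simp only [N, Sum.elim_inl, if_pos h] at h5
      rw [sub_dotProduct, smul_dotProduct, smul_eq_mul] at h5
      obtain ⟨h6, h7, -⟩ := hAct i j h
      rw [div_eq_div_iff h6 h7]
      field_simp at h5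
      linear_combination h5
    refine ⟨x, y, hlin, ?_, ?_, ?_⟩
    · intro j hj
      have h5 := hy (Sum.inr j)
      simpa only [N, Sum.elim_inr, if_pos hj] using h5
    · intro a l
      refine hT1 a _ (fun i hi => (Finset.mem_filter.1 hi).2.1) (fun i hi j hij => ?_)
        (fun i _ => hSn1 a (hxb a) i)
      obtain ⟨-, h6, h7⟩ := Finset.mem_filter.1 hi
      have h8 : Act i j := Or.inl ⟨a, hij⟩
      refine Finset.mem_filter.2 ⟨Finset.mem_univ _, (hAct i j h8).2.1, ?_⟩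
      rw [← hl i j h8]
      exact h7
    · intro a
      obtain ⟨i0, hi0⟩ := hSe2 a (hxc a).1
      refine ⟨A i0 ⬝ᵥ y / A i0 ⬝ᵥ x, fun l hl' => ?_⟩
      refine hT2 a _ (fun i hi => (Finset.mem_filter.1 hi).2.1) (fun i hi j hij => ?_)
        (fun i hi hS => ?_)
      · obtain ⟨-, h6, h7⟩ := Finset.mem_filter.1 hi
        have h8 : Act i j := Or.inr (Or.inl ⟨a, hij⟩)
        refine Finset.mem_filter.2 ⟨Finset.mem_univ _, (hAct i j h8).2.1, ?_⟩
        rw [← hl i j h8]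
        exact h7
      · obtain ⟨-, h6, h7⟩ := Finset.mem_filter.1 hi
        have h8 : Act i i0 := Or.inr (Or.inr ⟨a, hS, hi0⟩)
        apply hl'
        rw [hl i i0 h8] at h7
        obtain ⟨r, hr⟩ := h7
        exact ⟨-r, by rw [map_neg, hr, neg_sub]⟩

end Pool.Agent.TH145.MW
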