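import Pool.Agent.TH145.MW.Mov
import Pool.Agent.TH145.MW.Hgt

/-!
Infinitely many integral points over a function field give a bad line.
-/

set_option autoImplicit false

open Finset FF Pool.Agent.W603.LV Pool.Agent.W603.PV Pool.Agent.W602.RG

namespace Pool.Agent.TH145.MW

/-- the order of the value of a form -/
theorem ord_W {Ω E : Type} [Field Ω] [Field E] [Algebra Ω E] (P : Place Ω E) {q n e : ℕ}
    (A : Fin q → Fin (n + 1) → E) (hA : ∀ j l, Ge P 0 (A j l)) (c : Fin q → E)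
    (hc : ∀ j, Ge P 0 (c j)) (x : Fin (n + 1) → E) (hx : ∃ l, x l ≠ 0)
    (hW : W A c e x ≠ 0) (h : ∀ l, x l ≠ 0 → P.ord (W A c e x) ≤ e * P.ord (x l)) :
    (e : ℤ) ∣ P.ord (W A c e x) := by
  obtain ⟨l, hl, hlp⟩ := exists_pord P hx
  have h1 : Ge P (e * pord P x) (W A c e x) := by
    unfold W
    refine Ge.sum _ _ fun j _ => ?_
    have h2 : Ge P (pord P x) (A j ⬝ᵥ x) := by
      unfold dotProduct
      refine Ge.sum _ _ fun l _ => ?_
      have h3 := (hA j l).mul (ge_pord P x l)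
      rwa [zero_add] at h3
    have h3 := (hc j).mul (h2.pow e)
    rwa [zero_add] at h3
  have h2 := h1.resolve_left hW
  have h3 := h l hl
  rw [hlp] at h3
  rw [le_antisymm h3 h2]
  exact dvd_mul_right _ _

theorem clsum_eq {R : Type*} [Field R] {q n : ℕ} (C : Set R) (A : Fin q → Fin (n + 1) → R)
    (x u : Fin (n + 1) → R) (b : Fin q → R) (d : ℕ) (l : R) : ∃ T : Finset (Fin q),
      (∀ j, j ∈ T ↔ A j ⬝ᵥ x ≠ 0 ∧ A j ⬝ᵥ u / A j ⬝ᵥ x - l ∈ C) ∧
      clsum C A x u b d l = ∑ j ∈ T, b j * (A j ⬝ᵥ x) ^ d := by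
  classical
  refine ⟨_, fun j => ?_, rfl⟩
  simp

theorem rigid_step {k L : Type} [Field k] [Field L] [Algebra k L] [IsAlgClosed k] [CharZero k]
    [IsFF k L] {q n : ℕ} {ι κ : Type} [Finite ι] [Finite κ] (A : Fin q → Fin (n + 1) → L)
    (b : ι → Fin q → L) (d : ι → ℕ) (c : κ → Fin q → L) (e : κ → ℕ)
    (hd : ∀ a, 0 < d a ∧ (terms (b a) - 1) ^ 2 ≤ d a) (he : ∀ a, 0 < e a ∧ terms (c a) ^ 2 ≤ e a)
    (hN : ¬ Bad (Set.range (algebraMap k L)) A b d c e) (S : Finset (Place k L))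
    (l0 : Fin (n + 1)) :
    {x : Fin (n + 1) → L | x l0 = 1 ∧ (∀ a, W A (b a) (d a) x = 0) ∧
      ∀ a, W A (c a) (e a) x ≠ 0 ∧ ∀ P ∉ S, ∀ l, x l ≠ 0 →
        P.ord (W A (c a) (e a) x) ≤ e a * P.ord (x l)}.Finite := by
  classical
  by_contra hinf
  obtain ⟨M, hM⟩ : ∃ M, M = {x : Fin (n + 1) → L | x l0 = 1 ∧ (∀ a, W A (b a) (d a) x = 0) ∧
      ∀ a, W A (c a) (e a) x ≠ 0 ∧ ∀ P ∉ S, ∀ l, x l ≠ 0 →
        P.ord (W A (c a) (e a) x) ≤ e a * P.ord (x l)} := ⟨_, rfl⟩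
  rw [← hM] at hinf
  have hinf' : M.Infinite := hinf
  have hM1 : ∀ z ∈ M, z l0 = 1 := fun z hz => by rw [hM] at hz; exact hz.1
  have hM2 : ∀ z ∈ M, ∀ a, W A (b a) (d a) z = 0 := fun z hz => by rw [hM] at hz; exact hz.2.1
  have hM3 : ∀ z ∈ M, ∀ a, W A (c a) (e a) z ≠ 0 ∧ ∀ P ∉ S, ∀ l, z l ≠ 0 →
        P.ord (W A (c a) (e a) z) ≤ e a * P.ord (z l) := fun z hz => by
    rw [hM] at hz; exact hz.2.2
  -- the divisibility
  have := Fintype.ofFinite κ
  obtain ⟨S1, hS1⟩ := exists_supp (k := k) (Finset.univ : Finset (κ × Fin q))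
    (fun p => c p.1 p.2)
  obtain ⟨S2, hS2⟩ := exists_supp (k := k) (Finset.univ : Finset (Fin q × Fin (n + 1)))
    (fun p => A p.1 p.2)
  obtain ⟨S', hS'⟩ : ∃ S', S' = S ∪ (S1 ∪ S2) := ⟨_, rfl⟩
  have hc0 : ∀ a, ∀ P ∉ S', ∀ j, P.ord (c a j) = 0 := by
    intro a P hP j
    by_contra h
    exact hP (by rw [hS']; exact Finset.mem_union_right _ (Finset.mem_union_left _
      (hS1 (a, j) (Finset.mem_univ _) P h)))
  have hA0 : ∀ P ∉ S', ∀ j l, P.ord (A j l) = 0 := by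
    intro P hP j l
    by_contra h
    exact hP (by rw [hS']; exact Finset.mem_union_right _ (Finset.mem_union_right _
      (hS2 (j, l) (Finset.mem_univ _) P h)))
  have hSS' : ∀ P ∉ S', P ∉ S := fun P hP h => hP (by rw [hS']; exact Finset.mem_union_left _ h)
  have hne : ∀ z ∈ M, z ≠ 0 := by
    intro z hz h0
    have h1 := hM1 z hz
    rw [h0] at h1
    exact zero_ne_one h1
  have hdvd : ∀ z ∈ M, ∀ a, ∀ P ∉ S', (e a : ℤ) ∣ P.ord (W A (c a) (e a) z) := by
    intro z hz a P hP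
    exact ord_W P A (fun j l => Or.inr (hA0 P hP j l).symm.le) (c a)
      (fun j => Or.inr (hc0 a P hP j).symm.le) z ⟨l0, by rw [hM1 z hz]; exact one_ne_zero⟩
      (hM3 z hz a).1 ((hM3 z hz a).2 P (hSS' P hP))
  obtain ⟨B, hB0, hB⟩ := height_bound A b d c e hd he hN S'
  have hhgt : ∀ z ∈ M, ∀ j, hgt k (z j) ≤ B := by
    intro z hz j
    have h1 := hB z (hne z hz) (hM2 z hz) (fun a => ⟨(hM3 z hz a).1, hdvd z hz a⟩) l0 j
      (by rw [hM1 z hz]; exact one_ne_zero)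
    rwa [hM1 z hz, div_one] at h1
  -- a coordinate with infinitely many values
  obtain ⟨i1, hi1⟩ : ∃ i1, ((fun f : Fin (n + 1) → L => f i1) '' M).Infinite := by
    by_contra hcon
    push Not at hcon
    apply hinf'
    apply (Set.Finite.pi' (t := fun j : Fin (n + 1) => (fun f : Fin (n + 1) → L => f j) '' M)
      (fun j => hcon j)).subset
    intro f hf j
    exact ⟨f, hf, rfl⟩
  obtain ⟨p, u, θ, hu, hθ, hval⟩ := Pool.Agent.W764.RG.Seq.main k L B _ hi1 (by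
    rintro _ ⟨f, hf, rfl⟩
    exact hhgt f hf i1)
  choose g hgM hgu using hu
  have hg1 : ∀ l, g l l0 = 1 := fun l => hM1 _ (hgM l)
  -- homogeneous coordinates in a finite dimensional space
  obtain ⟨V, hV, hVf⟩ := Pool.Agent.W369.RG.RIE.main k L n (∑ _j : Fin (n + 1), B)
  have hφ : ∀ l, ∃ φ : L, φ ≠ 0 ∧ ∀ j, φ * g l j ∈ V := fun l =>
    hVf (g l) ⟨l0, by rw [hg1]; exact one_ne_zero⟩ (by
      have h1 := Pool.Agent.W603.PV.pht_le (k := k) (g l) (l := l0)
        (by rw [hg1]; exact one_ne_zero)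
      refine h1.trans (Finset.sum_le_sum fun j _ => ?_)
      rw [hg1, div_one]
      exact hhgt _ (hgM l) j)
  choose φ hφ0 hφV using hφ
  have hφE : Om.mk φ ∈ EE k L := by
    apply Pool.Agent.W61.RG.GSP.main k L V hV
    intro l
    have := hφV l l0
    rwa [hg1, mul_one] at this
  have hφne : Om.mk φ ≠ 0 := Om.mk_ne_zero hφ0
  have hgE : ∀ j, Om.mk (fun l => g l j) ∈ EE k L := by
    intro j
    have h1 : Om.mk (fun l => φ l * g l j) ∈ EE k L :=
      Pool.Agent.W61.RG.GSP.main k L V hV _ fun l => hφV l j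
    have h2 : Om.mk (fun l => g l j) = Om.mk (fun l => φ l * g l j) / Om.mk φ := by
      rw [← Om.mk_mul, mul_div_cancel_left₀ _ hφne]
    rw [h2]
    exact div_mem h1 hφE
  let fE : Fin (n + 1) → EE k L := fun j => ⟨Om.mk fun l => g l j, hgE j⟩
  have hfE : ∀ j, (fE j : Om L) = Om.mk fun l => g l j := fun j => rfl
  have hf1 : fE l0 = 1 := by
    apply Subtype.ext
    rw [hfE]
    change _ = Om.mk fun _ => (1 : L)
    congr 1
    funext l
    exact hg1 l
  -- the fields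
  have hBC : BC k L (Om k) (EE k L) := Pool.Agent.W736.RG.main k L
  have hAC : IsAlgClosed (Om k) := Pool.Agent.W917.RG.GAC.main k
  have hCZ : CharZero (Om k) :=
    charZero_of_injective_algebraMap (algebraMap k (Om k)).injective
  have hcL : CharZero L := charZero_of_injective_algebraMap (algebraMap k L).injective
  have hcE : CharZero (EE k L) := charZero_of_injective_algebraMap (algebraMap k (EE k L)).injective
  have hFF : IsFF (Om k) (EE k L) := Pool.Agent.W215.RG.ISF.main k L _ _ hBC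
  obtain ⟨D0, hD0⟩ := Pool.Agent.W160.RG.DER.main k (Om k) (Om.mk θ)
    (Pool.Agent.W32.RG.GTR.main k θ hθ)
  obtain ⟨D, hD⟩ := Pool.Agent.W797.RG.main k L _ _ hBC D0
  have hregC : ∀ P : Place (Om k) (EE k L), (∃ l : L, P.ord (algebraMap L (EE k L) l) ≠ 0) →
      Reg0 D P := Pool.Agent.W215.RG.RGC.main k L _ _ hBC D D0 hD
  have hreg : ∀ P : Place (Om k) (EE k L), Reg0 D P ∨ Mov D P := by
    intro P
    by_cases h : ∃ l : L, P.ord (algebraMap L (EE k L) l) ≠ 0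
    · exact Or.inl (hregC P h)
    · push Not at h
      exact Pool.Agent.W440.RG.RGM.main k L _ _ hBC D D0 hD P h
  -- the coordinate with infinitely many values is moving
  obtain ⟨P1, hP1, hP1v⟩ := Pool.Agent.W374.RG.GPL.main k L p
  have hDi1 : D (fE i1) ≠ 0 := by
    intro h0
    have h1 : fE i1 - algebraMap (Om k) (EE k L) (Om.mk θ) = 0 ∨
        0 < P1.ord (fE i1 - algebraMap (Om k) (EE k L) (Om.mk θ)) := by
      refine hP1v _ (fun l => g l i1 - algebraMap k L (θ l)) ?_ fun l => ?_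
      · change Om.mk (fun l => g l i1) - mapOm k L (Om.mk θ) = _
        rw [mapOm_mk, Om.mk_sub]
      · have h4 : g l i1 = u l := hgu l
        change g l i1 - algebraMap k L (θ l) = 0 ∨ 0 < p.ord (g l i1 - algebraMap k L (θ l))
        rw [h4, sub_eq_zero]
        exact hval l
    have h2 : D (fE i1 - algebraMap (Om k) (EE k L) (Om.mk θ)) =
        - algebraMap (Om k) (EE k L) (D0 (Om.mk θ)) := by
      rw [map_sub, h0, hD, zero_sub]
    have h3 : algebraMap (Om k) (EE k L) (D0 (Om.mk θ)) ≠ 0 := (map_ne_zero _).2 hD0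
    rcases h1 with h | h
    · rw [h, map_zero] at h2
      exact h3 (neg_eq_zero.1 h2.symm)
    · have h4 := hregC P1 hP1 (fE i1 - algebraMap (Om k) (EE k L) (Om.mk θ))
        (by rw [h2]; exact neg_ne_zero.2 h3)
      rw [h2, P1.ord_neg, P1.ord_const hD0] at h4
      omega
  have hev0 : ∀ (w : EE k L) (s : ℕ → L), (w : Om L) = Om.mk s →
      ∀ᶠ m in (Filter.hyperfilter ℕ : Filter ℕ), (w = 0 ↔ s m = 0) := by
    intro w s hws
    by_cases hw : w = 0
    · have h1 : Om.mk s = Om.mk fun _ => (0 : L) := by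
        rw [← hws, hw]; rfl
      rw [Om.mk_eq] at h1
      exact h1.mono fun l hl => ⟨fun _ => hl, fun _ => hw⟩
    · have h1 : ∀ᶠ m in (Filter.hyperfilter ℕ : Filter ℕ), ¬ (s m = 0) := by
        rw [Ultrafilter.eventually_not]
        intro h
        apply hw
        apply Subtype.ext
        rw [hws]
        change _ = Om.mk fun _ => (0 : L)
        rw [Om.mk_eq]
        exact h
      exact h1.mono fun l hl => ⟨fun h => absurd h hw, fun h => absurd h hl⟩
  -- the values of the linear forms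
  let t : Fin q → EE k L := fun j => ∑ l, algebraMap L (EE k L) (A j l) * fE l
  have ht : ∀ j, (t j : Om L) = Om.mk fun m => A j ⬝ᵥ g m := fun j => coe_dot (A j) g fE hfE
  have hsum : ∀ (T : Finset (Fin q)) (c : Fin q → L) (e : ℕ),
      ((∑ j ∈ T, algebraMap L (EE k L) (c j) * t j ^ e : EE k L) : Om L) =
        Om.mk fun m => ∑ j ∈ T, c j * (A j ⬝ᵥ g m) ^ e :=
    fun T c e => coe_sumT T c (fun m j => A j ⬝ᵥ g m) t ht e
  -- the derivatives of the coordinates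
  have hv : ∀ l, ∃ s : ℕ → L, (D (fE l) : Om L) = Om.mk s := by
    intro l
    obtain ⟨s, hs⟩ := Om.mk_surj ((D (fE l) : EE k L) : Om L)
    exact ⟨s, hs.symm⟩
  choose v' hv' using hv
  obtain ⟨v, hvv⟩ : ∃ v : ℕ → Fin (n + 1) → L, ∀ m l, v m l = v' l m := ⟨fun m l => v' l m, fun _ _ => rfl⟩
  have hv : ∀ l, ((D (fE l) : EE k L) : Om L) = Om.mk fun m => v m l := by
    intro l
    rw [hv' l]
    congr 1
    funext m
    rw [hvv]
  have hDt : ∀ j, D (t j) = ∑ l, algebraMap L (EE k L) (A j l) * D (fE l) := by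
    intro j
    simp only [t]
    rw [map_sum]
    refine Finset.sum_congr rfl fun l _ => ?_
    rw [D.leibniz, D.map_algebraMap]
    simp
  have hDt' : ∀ j, ((D (t j) : EE k L) : Om L) = Om.mk fun m => A j ⬝ᵥ v m := by
    intro j
    rw [hDt j]
    exact coe_dot (A j) v (fun l => D (fE l)) hv
  -- the classes
  have hcls1 : ∀ a, ∀ T : Finset (Fin q), (∀ i ∈ T, t i ≠ 0) →
      (∀ i ∈ T, ∀ j, t j ≠ 0 → Rel (Om k) D (t i ^ d a) (t j ^ d a) → j ∈ T) →
      ∑ j ∈ T, algebraMap L (EE k L) (b a j) * t j ^ d a = 0 := by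
    intro a
    have h1 : (0 : EE k L) = ∑ j, algebraMap L (EE k L) (b a j) * t j ^ d a := by
      apply Subtype.ext
      rw [hsum]
      change (Om.mk fun _ => (0 : L)) = _
      congr 1
      funext m
      exact (hM2 _ (hgM m) a).symm
    obtain ⟨Sp, -, -, h4, h5⟩ := cls D hreg (hd a).1 (b a) t 0 h1 (Or.inl ⟨rfl, (hd a).2⟩)
    intro T hT0 hT
    exact h5 T hT0 hT fun i _ => h4 rfl i
  have hcls2 : ∀ a, ∃ Sp : Fin q → Prop,
      (∀ i j, Sp i → Sp j → t i ≠ 0 ∧ t j ≠ 0 ∧ Rel (Om k) D (t i ^ e a) (t j ^ e a)) ∧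
      (∃ i, Sp i) ∧ ∀ T : Finset (Fin q), (∀ i ∈ T, t i ≠ 0) →
        (∀ i ∈ T, ∀ j, t j ≠ 0 → Rel (Om k) D (t i ^ e a) (t j ^ e a) → j ∈ T) →
        (∀ i ∈ T, ¬ Sp i) → ∑ j ∈ T, algebraMap L (EE k L) (c a j) * t j ^ e a = 0 := by
    intro a
    obtain ⟨F, hF⟩ : ∃ F : EE k L, F = ∑ j, algebraMap L (EE k L) (c a j) * t j ^ e a := ⟨_, rfl⟩
    have hFc : (F : Om L) = Om.mk fun m => W A (c a) (e a) (g m) := by
      rw [hF, hsum]
      rfl
    have hF0 : F ≠ 0 := by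
      intro h0
      have h1 := Om.mk_ne_zero (u := fun m => W A (c a) (e a) (g m))
        fun m => (hM3 _ (hgM m) a).1
      apply h1
      rw [← hFc, h0]
      rfl
    have hFW : F = W (fun j l => algebraMap L (EE k L) (A j l))
        (fun j => algebraMap L (EE k L) (c a j)) (e a) fE := by
      rw [hF]
      rfl
    have hdiv : ∀ P : Place (Om k) (EE k L), Mov D P → (e a : ℤ) ∣ P.ord F := by
      intro P hP
      have hP0 : ∀ l : L, P.ord (algebraMap L (EE k L) l) = 0 := fun l =>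
        hP.2.2 _ (D.map_algebraMap l)
      rw [hFW]
      refine ord_W P _ (fun j l => Or.inr (hP0 _).symm.le) _ (fun j => Or.inr (hP0 _).symm.le) fE
        ⟨l0, by rw [hf1]; exact one_ne_zero⟩ (by rw [← hFW]; exact hF0) ?_
      intro l hl
      rw [← hFW]
      obtain ⟨C, hC⟩ := hgt_W (k := k) A (c a) (e a) B
      obtain ⟨y, hy, hyP⟩ := mk_mov k L S (e a * B + C)
        (fun m => g m l ^ e a / W A (c a) (e a) (g m)) (by
          intro m
          constructor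
          · rw [div_eq_mul_inv]
            refine (hgt_mul_le (k := k) _ _).trans (add_le_add ?_ ?_)
            · exact (hgt_pow_le (k := k) _ _).trans
                (mul_le_mul_of_nonneg_left (hhgt _ (hgM m) l) (by positivity))
            · rw [hgt_inv]
              exact hC _ (hhgt _ (hgM m))
          · intro Q hQ
            by_cases h0 : g m l = 0
            · left
              rw [h0, zero_pow (he a).1.ne', zero_div]
            · right
              have h1 := (hM3 _ (hgM m) a).2 Q hQ l h0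
              rw [div_eq_mul_inv, Q.ord_mul (pow_ne_zero _ h0)
                (inv_ne_zero (hM3 _ (hgM m) a).1), Q.ord_inv, Q.ord_pow]
              linarith)
      have h1 : y * F = fE l ^ e a := by
        apply Subtype.ext
        change (y : Om L) * (F : Om L) = (fE l : Om L) ^ e a
        rw [hy, hFc, hfE, Om.mk_mul]
        have h2 : (Om.mk fun m => g m l) ^ e a = Om.mk fun m => g m l ^ e a := by
          rw [← Pool.Agent.TH145.MF.mkHom_apply, ← Pool.Agent.TH145.MF.mkHom_apply, ← map_pow]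
          rfl
        rw [h2]
        congr 1
        funext m
        exact div_mul_cancel₀ _ (hM3 _ (hgM m) a).1
      have hy0 : y ≠ 0 := by
        rintro rfl
        rw [zero_mul] at h1
        exact pow_ne_zero _ hl h1.symm
      have h2 := (hyP P hP0).resolve_left hy0
      have h3 := congrArg P.ord h1
      rw [P.ord_mul hy0 hF0, P.ord_pow] at h3
      linarith
    obtain ⟨Sp, h2, h3, -, h5⟩ := cls D hreg (he a).1 (c a) t F hF (Or.inr ⟨hF0, (he a).2, hdiv⟩)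
    exact ⟨Sp, h2, h3 hF0, h5⟩
  choose Sp hSp2 hSp3 hSp5 using hcls2
  -- the derivatives of the quotients
  have hRel : ∀ (i j : Fin q) (N : ℕ), 0 < N → t i ≠ 0 → t j ≠ 0 →
      Rel (Om k) D (t i ^ N) (t j ^ N) → ∃ ρ : ℕ → k,
      D (t i) * t j - D (t j) * t i = algebraMap (Om k) (EE k L) (Om.mk ρ) * (t i * t j) := by
    rintro i j N hN0 hi hj ⟨ω, w, hω, hw, hDw, h1⟩
    obtain ⟨ρ, hρ⟩ := Om.mk_surj (D0 ω / ω / (N : Om k))
    refine ⟨ρ, ?_⟩
    have hω' : algebraMap (Om k) (EE k L) ω ≠ 0 := (map_ne_zero _).2 hω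
    have hN' : (N : EE k L) ≠ 0 := by exact_mod_cast hN0.ne'
    have h2 := congrArg D h1
    rw [D.leibniz, D.leibniz_pow, D.leibniz_pow, D.leibniz, hDw, hD] at h2
    simp only [smul_eq_mul, nsmul_eq_mul, mul_zero, zero_add] at h2
    have h3 : (N : EE k L) * (D (t i) * t j - D (t j) * t i) * (t i ^ (N - 1) * t j ^ (N - 1)) =
        algebraMap (Om k) (EE k L) (D0 ω) / algebraMap (Om k) (EE k L) ω * (t i ^ N * t j ^ N) := by
      have h4 : t i ^ N = t i ^ (N - 1) * t i := by rw [← pow_succ, Nat.sub_add_cancel hN0]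
      have h5 : t j ^ N = t j ^ (N - 1) * t j := by rw [← pow_succ, Nat.sub_add_cancel hN0]
      have h6 : (N : EE k L) * (D (t i) * t i ^ (N - 1)) * t j ^ N =
          algebraMap (Om k) (EE k L) ω * w * (N * (D (t j) * t j ^ (N - 1))) * t j ^ N +
            algebraMap (Om k) (EE k L) (D0 ω) * w * t j ^ N * t j ^ N := by
        linear_combination t j ^ N * h2
      have h7 : (N : EE k L) * (D (t i) * t i ^ (N - 1)) * t j ^ N =
          (N : EE k L) * (D (t j) * t j ^ (N - 1)) * t i ^ N +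
            algebraMap (Om k) (EE k L) (D0 ω) / algebraMap (Om k) (EE k L) ω * t i ^ N * t j ^ N := by
        rw [h6, h1]
        field_simp
      rw [h5, h4] at h7 ⊢
      linear_combination h7
    rw [hρ, map_div₀, map_div₀, map_natCast]
    have h4 : t i ^ (N - 1) * t j ^ (N - 1) ≠ 0 := mul_ne_zero (pow_ne_zero _ hi) (pow_ne_zero _ hj)
    have h5 : t i ^ N * t j ^ N = (t i * t j) * (t i ^ (N - 1) * t j ^ (N - 1)) := by
      have h6 : t i ^ N = t i ^ (N - 1) * t i := by rw [← pow_succ, Nat.sub_add_cancel hN0]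
      have h7 : t j ^ N = t j ^ (N - 1) * t j := by rw [← pow_succ, Nat.sub_add_cancel hN0]
      rw [h6, h7]
      ring
    rw [h5] at h3
    have h6 : (N : EE k L) * (D (t i) * t j - D (t j) * t i) =
        algebraMap (Om k) (EE k L) (D0 ω) / algebraMap (Om k) (EE k L) ω * (t i * t j) := by
      apply mul_right_cancel₀ h4
      rw [h3]
      ring
    field_simp at h6 ⊢
    linear_combination h6
  -- the choice of the index
  have hE1 : ∀ j, ∀ᶠ m in (Filter.hyperfilter ℕ : Filter ℕ), (t j = 0 ↔ A j ⬝ᵥ g m = 0) :=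
    fun j => hev0 _ _ (ht j)
  have hE2 : ∀ j, ∀ᶠ m in (Filter.hyperfilter ℕ : Filter ℕ), (D (t j) = 0 ↔ A j ⬝ᵥ v m = 0) :=
    fun j => hev0 _ _ (hDt' j)
  have hE3 : ∀ p : Fin q × Fin q, ∀ᶠ m in (Filter.hyperfilter ℕ : Filter ℕ),
      ((∃ N : ℕ, 0 < N ∧ t p.1 ≠ 0 ∧ t p.2 ≠ 0 ∧ Rel (Om k) D (t p.1 ^ N) (t p.2 ^ N)) →
      ∃ r : k, (A p.1 ⬝ᵥ v m) * (A p.2 ⬝ᵥ g m) - (A p.2 ⬝ᵥ v m) * (A p.1 ⬝ᵥ g m) =
        algebraMap k L r * ((A p.1 ⬝ᵥ g m) * (A p.2 ⬝ᵥ g m))) := by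
    rintro ⟨i, j⟩
    by_cases h : ∃ N : ℕ, 0 < N ∧ t i ≠ 0 ∧ t j ≠ 0 ∧ Rel (Om k) D (t i ^ N) (t j ^ N)
    · obtain ⟨N, hN0, hi, hj, hr⟩ := h
      obtain ⟨ρ, hρ⟩ := hRel i j N hN0 hi hj hr
      have h1 := congrArg (fun z : EE k L => (z : Om L)) hρ
      change ((D (t i) : EE k L) : Om L) * (t j : Om L) - ((D (t j) : EE k L) : Om L) * (t i : Om L) =
        mapOm k L (Om.mk ρ) * ((t i : Om L) * (t j : Om L)) at h1
      rw [hDt', hDt', ht, ht, mapOm_mk, Om.mk_mul, Om.mk_mul, Om.mk_mul, Om.mk_mul, Om.mk_sub,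
        Om.mk_eq] at h1
      exact h1.mono fun m hm _ => ⟨ρ m, hm⟩
    · exact Filter.Eventually.of_forall fun m h' => absurd h' h
  have hE4 : ∀ p : ι × Finset (Fin q), ∀ᶠ m in (Filter.hyperfilter ℕ : Filter ℕ),
      (∑ j ∈ p.2, algebraMap L (EE k L) (b p.1 j) * t j ^ d p.1 = 0 ↔
        ∑ j ∈ p.2, b p.1 j * (A j ⬝ᵥ g m) ^ d p.1 = 0) :=
    fun p => hev0 _ _ (hsum _ _ _)
  have hE5 : ∀ p : κ × Finset (Fin q), ∀ᶠ m in (Filter.hyperfilter ℕ : Filter ℕ),
      (∑ j ∈ p.2, algebraMap L (EE k L) (c p.1 j) * t j ^ e p.1 = 0 ↔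
        ∑ j ∈ p.2, c p.1 j * (A j ⬝ᵥ g m) ^ e p.1 = 0) :=
    fun p => hev0 _ _ (hsum _ _ _)
  have hE6 : ∀ᶠ m in (Filter.hyperfilter ℕ : Filter ℕ), (D (fE i1) = 0 ↔ v m i1 = 0) :=
    hev0 _ _ (hv i1)
  have hE7 : ∀ᶠ m in (Filter.hyperfilter ℕ : Filter ℕ), (D (fE l0) = 0 ↔ v m l0 = 0) :=
    hev0 _ _ (hv l0)
  obtain ⟨m, ⟨⟨⟨⟨⟨h1, h2⟩, h3⟩, h4⟩, h5⟩, h6⟩, h7⟩ :=
    ((((((Filter.eventually_all.2 hE1).and (Filter.eventually_all.2 hE2)).and
      (Filter.eventually_all.2 hE3)).and (Filter.eventually_all.2 hE4)).and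
      (Filter.eventually_all.2 hE5)).and hE6 |>.and hE7).exists
  have hvi1 : v m i1 ≠ 0 := fun h => hDi1 (h6.2 h)
  have hvl0 : v m l0 = 0 := h7.1 (by rw [hf1, D.map_one_eq_zero])
  have hlam : ∀ (i j : Fin q) (N : ℕ), 0 < N → t i ≠ 0 → t j ≠ 0 →
      Rel (Om k) D (t i ^ N) (t j ^ N) → ∃ r : k,
      A i ⬝ᵥ v m / A i ⬝ᵥ g m - A j ⬝ᵥ v m / A j ⬝ᵥ g m = algebraMap k L r := by
    intro i j N hN0 hi hj hr
    obtain ⟨r, hr⟩ := h3 (i, j) ⟨N, hN0, hi, hj, hr⟩
    refine ⟨r, ?_⟩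
    have hi' : A i ⬝ᵥ g m ≠ 0 := fun h => hi ((h1 i).2 h)
    have hj' : A j ⬝ᵥ g m ≠ 0 := fun h => hj ((h1 j).2 h)
    simp only at hr
    rw [div_sub_div _ _ hi' hj', div_eq_iff (mul_ne_zero hi' hj')]
    linear_combination hr
  apply hN
  refine ⟨g m, v m, ?_, ?_, ?_, ?_⟩
  · rw [LinearIndependent.pair_iff]
    intro x y hxy
    have h8 := congrFun hxy l0
    simp only [Pi.add_apply, Pi.smul_apply, smul_eq_mul, Pi.zero_apply, hg1, hvl0, mul_one,
      mul_zero, add_zero] at h8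
    refine ⟨h8, ?_⟩
    have h9 := congrFun hxy i1
    simp only [Pi.add_apply, Pi.smul_apply, smul_eq_mul, Pi.zero_apply, h8, zero_mul,
      zero_add] at h9
    exact (mul_eq_zero.1 h9).resolve_right hvi1
  · intro j hj
    exact (h2 j).1 (by rw [(h1 j).2 hj, map_zero])
  · intro a l
    obtain ⟨T, hT, hTs⟩ := clsum_eq (Set.range (algebraMap k L)) A (g m) (v m) (b a) (d a) l
    rw [hTs]
    refine (h4 (a, T)).1 (hcls1 a _ ?_ ?_)
    · intro i hi h0
      exact ((hT i).1 hi).1 ((h1 i).1 h0)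
    · intro i hi j hj hr
      obtain ⟨h9, r1, h10⟩ := (hT i).1 hi
      obtain ⟨r, hr⟩ := hlam i j _ (hd a).1 (fun h => h9 ((h1 i).1 h)) hj hr
      refine (hT j).2 ⟨fun h => hj ((h1 j).2 h), r1 - r, ?_⟩
      rw [map_sub, ← hr, h10]
      ring
  · intro a
    obtain ⟨i0, hi0⟩ := hSp3 a
    refine ⟨A i0 ⬝ᵥ v m / A i0 ⬝ᵥ g m, fun l hl => ?_⟩
    obtain ⟨T, hT, hTs⟩ := clsum_eq (Set.range (algebraMap k L)) A (g m) (v m) (c a) (e a) l
    rw [hTs]
    refine (h5 (a, T)).1 (hSp5 a _ ?_ ?_ ?_)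
    · intro i hi h0
      exact ((hT i).1 hi).1 ((h1 i).1 h0)
    · intro i hi j hj hr
      obtain ⟨h9, r1, h10⟩ := (hT i).1 hi
      obtain ⟨r, hr⟩ := hlam i j _ (he a).1 (fun h => h9 ((h1 i).1 h)) hj hr
      refine (hT j).2 ⟨fun h => hj ((h1 j).2 h), r1 - r, ?_⟩
      rw [map_sub, ← hr, h10]
      ring
    · intro i hi hS
      obtain ⟨h9, r1, h10⟩ := (hT i).1 hi
      obtain ⟨h11, h12, h13⟩ := hSp2 a i i0 hS hi0
      obtain ⟨r, hr⟩ := hlam i i0 _ (he a).1 h11 h12 h13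
      apply hl
      refine ⟨r - r1, ?_⟩
      rw [map_sub, ← hr, h10]
      ring

end Pool.Agent.TH145.MW
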