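import Pool.Agent.TH145.MW.Rig
import Pool.Agent.TH145.MF.FF
import Pool.Agent.TH145.MF.Mord

/-!
Finiteness of integral points over finitely generated rings.
-/

set_option autoImplicit false

open Finset FF Pool.Agent.W603.LV LinearAlgebra.Projectivization

namespace Pool.Agent.TH145.MW

variable {K : Type} [Field K] {q n : ℕ} {ι κ : Type}

/-- The points `x` of projective space with `∑ b_(a,j) A_j(x) ^ (d_a) = 0` for all `a` that are
integral over `R` with respect to the hypersurfaces `F_a(x) = ∑ c_(a,j) A_j(x) ^ (e_a) = 0`: the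
functions `x_i ^ (e_a) / F_a(x)` take values in `R`. -/
def IntPts (A : Fin q → Fin (n + 1) → K) (b : ι → Fin q → K) (d : ι → ℕ) (c : κ → Fin q → K)
    (e : κ → ℕ) (R : Subring K) : Set (ℙ K (Fin (n + 1) → K)) :=
  {p | ∃ (x : Fin (n + 1) → K) (hx : x ≠ 0), p = Projectivization.mk K x hx ∧ (∀ i, x i ∈ R) ∧
    (∀ a, W A (b a) (d a) x = 0) ∧
    ∀ a, W A (c a) (e a) x ≠ 0 ∧ ∀ i, x i ^ e a / W A (c a) (e a) x ∈ R}

theorem bad_coe (k1 : Subfield K) (L : IntermediateField k1 K) (A : Fin q → Fin (n + 1) → L)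
    (b : ι → Fin q → L) (d : ι → ℕ) (c : κ → Fin q → L) (e : κ → ℕ)
    (h : Bad (Set.range (algebraMap k1 L)) A b d c e) :
    Bad (k1 : Set K) (fun j i => (A j i : K)) (fun a j => (b a j : K)) d
      (fun a j => (c a j : K)) e := by
  classical
  obtain ⟨x, u, hli, hz, hb, hc⟩ := h
  have hdot : ∀ (j : Fin q) (x : Fin (n + 1) → L),
      (fun i => (A j i : K)) ⬝ᵥ (fun i => (x i : K)) = ((A j ⬝ᵥ x : L) : K) := by
    intro j x
    simp only [dotProduct]
    push_cast
    rfl
  -- the class sums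
  have hcl : ∀ (b : Fin q → L) (d : ℕ) (l : K),
      clsum (k1 : Set K) (fun j i => (A j i : K)) (fun i => (x i : K)) (fun i => (u i : K))
        (fun j => (b j : K)) d l = 0 ∨ ∃ l' : L, (l' : K) = l ∧
      clsum (k1 : Set K) (fun j i => (A j i : K)) (fun i => (x i : K)) (fun i => (u i : K))
        (fun j => (b j : K)) d l = ((clsum (Set.range (algebraMap k1 L)) A x u b d l' : L) : K) := by
    intro b d l
    obtain ⟨T, hT, hTs⟩ := clsum_eq (k1 : Set K) (fun j i => (A j i : K)) (fun i => (x i : K))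
      (fun i => (u i : K)) (fun j => (b j : K)) d l
    rw [hTs]
    by_cases hne : T.Nonempty
    · right
      obtain ⟨j, hj⟩ := hne
      have h1 := ((hT j).1 hj).2
      rw [hdot, hdot] at h1
      have h2 : l ∈ L := by
        have h3 : l = ((A j ⬝ᵥ u : L) : K) / ((A j ⬝ᵥ x : L) : K) -
            (((A j ⬝ᵥ u : L) : K) / ((A j ⬝ᵥ x : L) : K) - l) := by ring
        rw [h3]
        exact sub_mem (div_mem (SetLike.coe_mem _) (SetLike.coe_mem _))
          (L.algebraMap_mem ⟨_, h1⟩)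
      refine ⟨⟨l, h2⟩, rfl, ?_⟩
      obtain ⟨T', hT', hTs'⟩ := clsum_eq (Set.range (algebraMap k1 L)) A x u b d ⟨l, h2⟩
      rw [hTs']
      have h4 : T = T' := by
        ext i
        rw [hT, hT', hdot, hdot]
        refine and_congr ?_ ?_
        · rw [Ne, Ne, ZeroMemClass.coe_eq_zero]
        · constructor
          · intro h5
            refine ⟨⟨_, h5⟩, ?_⟩
            apply Subtype.ext
            push_cast
            rfl
          · rintro ⟨r, hr⟩
            have h6 := congrArg (fun t : L => (t : K)) hr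
            push_cast at h6
            change _ ∈ k1
            rw [← h6]
            exact r.2
      rw [h4]
      push_cast
      refine Finset.sum_congr rfl fun i _ => ?_
      rw [hdot]
    · left
      rw [Finset.not_nonempty_iff_eq_empty] at hne
      rw [hne, Finset.sum_empty]
  refine ⟨fun i => (x i : K), fun i => (u i : K), ?_, ?_, ?_, ?_⟩
  · rw [Pool.Agent.TH145.MF.pair_iff] at hli ⊢
    obtain ⟨i, j, hij⟩ := hli
    refine ⟨i, j, fun h1 => hij ?_⟩
    apply Subtype.ext
    push_cast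
    exact h1
  · intro j hj
    rw [hdot] at hj ⊢
    rw [ZeroMemClass.coe_eq_zero] at hj ⊢
    exact hz j hj
  · intro a l
    rcases hcl (b a) (d a) l with h1 | ⟨l', -, h1⟩
    · exact h1
    · rw [h1, hb a l']
      rfl
  · intro a
    obtain ⟨m, hm⟩ := hc a
    refine ⟨(m : K), fun l hl => ?_⟩
    rcases hcl (c a) (e a) l with h1 | ⟨l', h2, h1⟩
    · exact h1
    · rw [h1, hm l' ?_]
      · rfl
      · rintro ⟨r, hr⟩
        apply hl
        rw [← h2]
        have h6 := congrArg (fun t : L => (t : K)) hr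
        push_cast at h6
        change _ ∈ k1
        rw [← h6]
        exact r.2

theorem finite_intPts [IsAlgClosed K] [CharZero K] (k0 : Subfield K) (s : K)
    (hs : Transcendental k0 s) [Finite ι] [Finite κ] (A : Fin q → Fin (n + 1) → K)
    (b : ι → Fin q → K) (d : ι → ℕ) (c : κ → Fin q → K) (e : κ → ℕ)
    (hd : ∀ a, 0 < d a ∧ (terms (b a) - 1) ^ 2 ≤ d a) (he : ∀ a, 0 < e a ∧ terms (c a) ^ 2 ≤ e a)
    (hN : ∀ k1 : Subfield K, k0 ≤ k1 → IsAlgClosed k1 → s ∉ k1 → ¬ Bad (k1 : Set K) A b d c e)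
    (T : Finset K) : (IntPts A b d c e (Subring.closure (T : Set K))).Finite := by
  classical
  have := Fintype.ofFinite ι
  have := Fintype.ofFinite κ
  obtain ⟨T', hT'⟩ : ∃ T' : Finset K, T' = T ∪ ((univ.image fun p : Fin q × Fin (n + 1) =>
    A p.1 p.2) ∪ ((univ.image fun p : ι × Fin q => b p.1 p.2) ∪
      (univ.image fun p : κ × Fin q => c p.1 p.2))) := ⟨_, rfl⟩
  obtain ⟨k1, hk01, hac, hsk1, L, hL, hsL, hTL⟩ := Pool.Agent.TH145.MF.exists_ff k0 s hs T'
  have hcz : CharZero k1 := charZero_of_injective_algebraMap (algebraMap ℚ k1).injective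
  have hT1 : ∀ t ∈ T, t ∈ L := fun t ht => hTL t (by rw [hT']; exact Finset.mem_union_left _ ht)
  have hAL : ∀ j i, A j i ∈ L := fun j i => hTL _ (by
    rw [hT']
    exact Finset.mem_union_right _ (Finset.mem_union_left _
      (Finset.mem_image.2 ⟨(j, i), Finset.mem_univ _, rfl⟩)))
  have hbL : ∀ a j, b a j ∈ L := fun a j => hTL _ (by
    rw [hT']
    exact Finset.mem_union_right _ (Finset.mem_union_right _ (Finset.mem_union_left _
      (Finset.mem_image.2 ⟨(a, j), Finset.mem_univ _, rfl⟩))))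
  have hcL : ∀ a j, c a j ∈ L := fun a j => hTL _ (by
    rw [hT']
    exact Finset.mem_union_right _ (Finset.mem_union_right _ (Finset.mem_union_right _
      (Finset.mem_image.2 ⟨(a, j), Finset.mem_univ _, rfl⟩))))
  let A' : Fin q → Fin (n + 1) → L := fun j i => ⟨A j i, hAL j i⟩
  let b' : ι → Fin q → L := fun a j => ⟨b a j, hbL a j⟩
  let c' : κ → Fin q → L := fun a j => ⟨c a j, hcL a j⟩
  have htb : ∀ a, terms (b' a) = terms (b a) := fun a =>
    (terms_map (algebraMap L K) (b' a)).symm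
  have htc : ∀ a, terms (c' a) = terms (c a) := fun a =>
    (terms_map (algebraMap L K) (c' a)).symm
  have hN' : ¬ Bad (Set.range (algebraMap k1 L)) A' b' d c' e := fun h =>
    hN k1 hk01 hac hsk1 (bad_coe k1 L A' b' d c' e h)
  -- the places
  obtain ⟨S, hS⟩ := exists_supp (k := k1) (Finset.univ : Finset T)
    (fun t => (⟨t.1, hT1 t.1 t.2⟩ : L))
  have hRL : ∀ y ∈ Subring.closure (T : Set K), ∃ h : y ∈ L,
      ∀ P : Place k1 L, P ∉ S → Ge P 0 (⟨y, h⟩ : L) := by
    intro y hy
    induction hy using Subring.closure_induction with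
    | mem t ht =>
      refine ⟨hT1 t ht, fun P hP => ?_⟩
      right
      by_contra hlt
      exact hP (hS ⟨t, ht⟩ (Finset.mem_univ _) P (by
        intro h0
        change P.ord (⟨t, hT1 t ht⟩ : L) = 0 at h0
        rw [h0] at hlt
        exact hlt le_rfl))
    | zero => exact ⟨zero_mem _, fun P _ => Or.inl rfl⟩
    | one => exact ⟨one_mem _, fun P _ => Ge.one (P := P)⟩
    | add x y _ _ hx hy =>
      obtain ⟨h1, h2⟩ := hx
      obtain ⟨h3, h4⟩ := hy
      exact ⟨add_mem h1 h3, fun P hP => (h2 P hP).add (h4 P hP)⟩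
    | neg x _ hx =>
      obtain ⟨h1, h2⟩ := hx
      exact ⟨neg_mem h1, fun P hP => (h2 P hP).neg⟩
    | mul x y _ _ hx hy =>
      obtain ⟨h1, h2⟩ := hx
      obtain ⟨h3, h4⟩ := hy
      refine ⟨mul_mem h1 h3, fun P hP => ?_⟩
      have h5 := (h2 P hP).mul (h4 P hP)
      rwa [add_zero] at h5
  have hfin := fun l0 => rigid_step (k := k1) (L := L) A' b' d c' e
    (fun a => ⟨(hd a).1, by rw [htb]; exact (hd a).2⟩)
    (fun a => ⟨(he a).1, by rw [htc]; exact (he a).2⟩) hN' S l0
  let Z : Fin (n + 1) → Set (Fin (n + 1) → L) := fun l0 => {x | x l0 = 1 ∧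
      (∀ a, W A' (b' a) (d a) x = 0) ∧ ∀ a, W A' (c' a) (e a) x ≠ 0 ∧ ∀ P ∉ S, ∀ l, x l ≠ 0 →
        P.ord (W A' (c' a) (e a) x) ≤ e a * P.ord (x l)}
  have hne : ∀ (l0 : Fin (n + 1)) (z : Z l0), (fun i => ((z.1 i : L) : K)) ≠ 0 := by
    intro l0 z h0
    have h1 := congrFun h0 l0
    have h2 := z.2.1
    simp only [Pi.zero_apply] at h1
    rw [h2] at h1
    simp at h1
  let f : (l0 : Fin (n + 1)) → Z l0 → ℙ K (Fin (n + 1) → K) :=
    fun l0 z => Projectivization.mk K _ (hne l0 z)
  have hun : (⋃ l0, Set.range (f l0)).Finite := by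
    apply Set.finite_iUnion
    intro l0
    have h1 : Finite (Z l0) := hfin l0
    exact Set.finite_range _
  refine hun.subset ?_
  rintro p ⟨x, hx0, rfl, hxR, hxb, hxc⟩
  obtain ⟨l0, hl0⟩ := Function.ne_iff.1 hx0
  have hl0' : x l0 ≠ 0 := hl0
  have hxL : ∀ i, x i ∈ L := fun i => (hRL _ (hxR i)).1
  let z : Fin (n + 1) → L := fun i => ⟨x i, hxL i⟩ / ⟨x l0, hxL l0⟩
  have hzc : ∀ i, ((z i : L) : K) = x i / x l0 := fun i => rfl
  have hW : ∀ (β : Fin q → K) (β' : Fin q → L) (N : ℕ), (∀ j, (β' j : K) = β j) →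
      ((W A' β' N z : L) : K) = W A β N x / x l0 ^ N := by
    intro β β' N hβ
    unfold W
    push_cast
    rw [Finset.sum_div]
    refine Finset.sum_congr rfl fun j _ => ?_
    rw [hβ j]
    have h1 : ((A' j ⬝ᵥ z : L) : K) = (A j ⬝ᵥ x) / x l0 := by
      simp only [dotProduct]
      push_cast
      rw [Finset.sum_div]
      refine Finset.sum_congr rfl fun i _ => ?_
      rw [hzc]
      exact (mul_div_assoc _ _ _).symm
    rw [h1, div_pow, mul_div_assoc]
  have hzmem : z ∈ Z l0 := by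
    refine ⟨?_, fun a => ?_, fun a => ⟨?_, ?_⟩⟩
    · apply Subtype.ext
      rw [hzc, div_self hl0']
      rfl
    · apply Subtype.ext
      rw [hW (b a) (b' a) (d a) (fun j => rfl), hxb a, zero_div]
      rfl
    · intro h0
      have h1 := hW (c a) (c' a) (e a) (fun j => rfl)
      rw [h0] at h1
      have h2 : W A (c a) (e a) x / x l0 ^ e a = 0 := h1.symm
      rcases div_eq_zero_iff.1 h2 with h3 | h3
      · exact (hxc a).1 h3
      · exact pow_ne_zero _ hl0' h3
    · intro P hP l hl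
      have hWne : W A' (c' a) (e a) z ≠ 0 := by
        intro h0
        have h1 := hW (c a) (c' a) (e a) (fun j => rfl)
        rw [h0] at h1
        have h2 : W A (c a) (e a) x / x l0 ^ e a = 0 := h1.symm
        rcases div_eq_zero_iff.1 h2 with h3 | h3
        · exact (hxc a).1 h3
        · exact pow_ne_zero _ hl0' h3
      obtain ⟨h1, h2⟩ := hRL _ ((hxc a).2 l)
      have h3 : (⟨x l ^ e a / W A (c a) (e a) x, h1⟩ : L) = z l ^ e a / W A' (c' a) (e a) z := by
        apply Subtype.ext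
        push_cast
        rw [hW (c a) (c' a) (e a) (fun j => rfl), hzc, div_pow]
        have h4 : x l0 ^ e a ≠ 0 := pow_ne_zero _ hl0'
        have h5 := (hxc a).1
        field_simp
      have h4 := h2 P hP
      rw [h3] at h4
      have h5 := h4.resolve_left (div_ne_zero (pow_ne_zero _ hl) hWne)
      rw [div_eq_mul_inv, P.ord_mul (pow_ne_zero _ hl) (inv_ne_zero hWne), P.ord_inv,
        P.ord_pow] at h5
      linarith
  rw [Set.mem_iUnion]
  refine ⟨l0, ⟨z, hzmem⟩, ?_⟩
  change Projectivization.mk K _ _ = Projectivization.mk K _ _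
  rw [Projectivization.mk_eq_mk_iff']
  refine ⟨(x l0)⁻¹, ?_⟩
  funext i
  simp only [Pi.smul_apply, smul_eq_mul]
  rw [hzc, div_eq_inv_mul]

end Pool.Agent.TH145.MW
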