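import Pool.Agent.TH145.MW.Cramer
import Pool.Agent.TH145.MF.Hgt

/-!
Blocks of the terms of a sum of powers of linear forms.
-/

set_option autoImplicit false

open Finset FF Pool.Agent.W603.LV Pool.Agent.W603.PV

namespace Pool.Agent.TH145.MW

/-- The value at `x` of the form `∑ c_j A_j ^ e`. -/
def W {R : Type*} [CommRing R] {q n : ℕ} (A : Fin q → Fin (n + 1) → R) (c : Fin q → R) (e : ℕ)
    (x : Fin (n + 1) → R) : R := ∑ j, c j * (A j ⬝ᵥ x) ^ e

/-- The number of nonzero coefficients. -/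
noncomputable def terms {R : Type*} [Zero R] {q : ℕ} (c : Fin q → R) : ℕ :=
  (Function.support c).ncard

theorem terms_eq {R : Type*} [Zero R] {q : ℕ} (c : Fin q → R) [DecidablePred fun j => c j ≠ 0] :
    terms c = (univ.filter fun j => c j ≠ 0).card := by
  unfold terms
  rw [← Set.ncard_coe_finset]
  congr 1
  ext j
  simp

theorem blk {k L : Type} [Field k] [Field L] [Algebra k L] [IsAlgClosed k] [CharZero k]
    [IsFF k L] {q n e : ℕ} (he0 : 0 < e) (A : Fin q → Fin (n + 1) → L) (c : Fin q → L)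
    (S : Finset (Place k L)) (hc : ∀ P ∉ S, ∀ j, P.ord (c j) = 0) :
    ∃ B : ℤ, 0 ≤ B ∧ ∀ x : Fin (n + 1) → L,
      ((W A c e x = 0 ∧ (terms c - 1) ^ 2 ≤ e) ∨
        (W A c e x ≠ 0 ∧ terms c ^ 2 ≤ e ∧ ∀ P ∉ S, (e : ℤ) ∣ P.ord (W A c e x))) →
      ∃ (R : Fin q → Fin q → Prop) (Sp : Fin q → Prop),
        (∀ i j, R i j → A i ⬝ᵥ x ≠ 0 ∧ A j ⬝ᵥ x ≠ 0 ∧ hgt k (A i ⬝ᵥ x / A j ⬝ᵥ x) ≤ B) ∧
        (∀ i j, Sp i → Sp j → A i ⬝ᵥ x ≠ 0 ∧ A j ⬝ᵥ x ≠ 0 ∧ hgt k (A i ⬝ᵥ x / A j ⬝ᵥ x) ≤ B) ∧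
        (W A c e x ≠ 0 → ∃ i, Sp i) ∧ (W A c e x = 0 → ∀ i, ¬ Sp i) ∧
        ∀ T : Finset (Fin q), (∀ i ∈ T, A i ⬝ᵥ x ≠ 0) → (∀ i ∈ T, ∀ j, R i j → j ∈ T) →
          (∀ i ∈ T, ¬ Sp i) → ∑ j ∈ T, c j * (A j ⬝ᵥ x) ^ e = 0 := by
  classical
  obtain ⟨X0, hX0⟩ : ∃ X0 : ℕ → ℤ, ∀ s, X0 s = (s : ℤ) *
    (e * tri s * max (canDeg k L + S.card) 0) := ⟨_, fun _ => rfl⟩
  have hX00 : ∀ s, 0 ≤ X0 s := by
    intro s
    rw [hX0]
    exact mul_nonneg (by positivity)
      (mul_nonneg (mul_nonneg (by positivity) (tri_nonneg _)) (le_max_right _ _))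
  obtain ⟨C1, hC1⟩ : ∃ C1 : ℤ, C1 = ∑ p : Fin q × Fin q, hgt k (c p.1 / c p.2) := ⟨_, rfl⟩
  have hC10 : 0 ≤ C1 := by
    rw [hC1]; exact Finset.sum_nonneg fun _ _ => hgt_nonneg _
  have hC1le : ∀ i j, hgt k (c i / c j) ≤ C1 := by
    intro i j
    rw [hC1]
    exact Finset.single_le_sum (f := fun p : Fin q × Fin q => hgt k (c p.1 / c p.2))
      (fun _ _ => hgt_nonneg _) (Finset.mem_univ (i, j))
  refine ⟨X0 (terms c) + X0 (terms c + 1) + C1, by
    have := hX00 (terms c); have := hX00 (terms c + 1); positivity, ?_⟩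
  intro x hx
  obtain ⟨f, hf⟩ : ∃ f, f = W A c e x := ⟨_, rfl⟩
  rw [← hf] at hx ⊢
  let pr : Option (Fin q) → Prop := fun o => Option.elim o (f ≠ 0) fun j => c j ≠ 0 ∧ A j ⬝ᵥ x ≠ 0
  let g : Option (Fin q) → L := fun o => Option.elim o (-f) fun j => c j * (A j ⬝ᵥ x) ^ e
  let J : Type := {o : Option (Fin q) // pr o}
  have hg0 : ∀ o : J, g o.1 ≠ 0 := by
    rintro ⟨o, ho⟩
    cases o with
    | none => exact neg_ne_zero.2 ho
    | some j => exact mul_ne_zero ho.1 (pow_ne_zero _ ho.2)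
  have hgz : ∀ o, ¬ pr o → g o = 0 := by
    intro o ho
    cases o with
    | none =>
      simp only [pr, Option.elim_none, not_not] at ho
      simp only [g, Option.elim_none, ho, neg_zero]
    | some j =>
      simp only [pr, Option.elim_some, not_and_or, not_not] at ho
      simp only [g, Option.elim_some]
      rcases ho with h | h
      · rw [h, zero_mul]
      · rw [h, zero_pow he0.ne', mul_zero]
  have hrel : ∑ o : J, g o.1 = 0 := by
    have h1 : ∑ o ∈ univ.filter pr, g o = ∑ o : J, g o.1 :=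
      Finset.sum_subtype (univ.filter pr) (fun o => by simp) g
    rw [← h1, Finset.sum_filter_of_ne (fun o _ ho => by
      by_contra h
      exact ho (hgz o h)), Fintype.sum_option]
    simp only [g, Option.elim_none, Option.elim_some]
    have h2 : ∑ j, c j * (A j ⬝ᵥ x) ^ e = f := by rw [hf]; rfl
    rw [h2, neg_add_cancel]
  have hterms := terms_eq c
  -- the number of terms
  obtain ⟨s, hs, hse, hsX⟩ : ∃ s : ℕ, Fintype.card J ≤ s ∧ (s - 1) ^ 2 ≤ e ∧
      X0 s ≤ X0 (terms c) + X0 (terms c + 1) := by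
    rcases hx with ⟨h1, h2⟩ | ⟨h1, h2, -⟩
    · refine ⟨terms c, ?_, h2, by have := hX00 (terms c + 1); linarith⟩
      rw [hterms, ← Fintype.card_coe]
      refine Fintype.card_le_of_injective (fun o : J => (⟨Option.get o.1 (by
        obtain ⟨o, ho⟩ := o
        cases o with
        | none => exact absurd h1 ho
        | some j => rfl), by
        obtain ⟨o, ho⟩ := o
        cases o with
        | none => exact absurd h1 ho
        | some j => exact Finset.mem_filter.2 ⟨Finset.mem_univ _, ho.1⟩⟩ :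
          (univ.filter fun j => c j ≠ 0 : Finset (Fin q)))) ?_
      intro a b hab
      have h3 := congrArg (fun t : (univ.filter fun j => c j ≠ 0 : Finset (Fin q)) => t.1) hab
      simp only at h3
      apply Subtype.ext
      exact Option.get_inj.1 h3
    · refine ⟨terms c + 1, ?_, by simpa using h2, by have := hX00 (terms c); linarith⟩
      have h3 : Fintype.card J ≤ Fintype.card
          (Option (univ.filter fun j => c j ≠ 0 : Finset (Fin q))) := by
        refine Fintype.card_le_of_injective (fun o : J => match o with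
          | ⟨none, _⟩ => none
          | ⟨some j, h⟩ => some ⟨j, Finset.mem_filter.2 ⟨Finset.mem_univ _, h.1⟩⟩) ?_
        rintro ⟨a, ha⟩ ⟨b, hb⟩ hab
        cases a with
        | none =>
          cases b with
          | none => rfl
          | some j => simp at hab
        | some i =>
          cases b with
          | none => simp at hab
          | some j =>
            simp only [Option.some.injEq, Subtype.mk.injEq] at hab
            exact Subtype.ext (congrArg some hab)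
      rw [Fintype.card_option, Fintype.card_coe, ← hterms] at h3
      exact h3
  have hdiv : ∀ P ∉ S, ∀ o : J, (e : ℤ) ∣ P.ord (g o.1) := by
    rintro P hP ⟨o, ho⟩
    cases o with
    | none =>
      simp only [g, Option.elim_none]
      rw [P.ord_neg]
      rcases hx with ⟨h1, -⟩ | ⟨-, -, h2⟩
      · exact absurd h1 ho
      · exact h2 P hP
    | some j =>
      simp only [g, Option.elim_some]
      rw [P.ord_mul ho.1 (pow_ne_zero _ ho.2), hc P hP, zero_add, P.ord_pow]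
      exact dvd_mul_right _ _
  obtain ⟨R, hR, hRh, hRs⟩ := blocks (k := k) (J := J) S (N := e) (s := s) hs he0 hse
    (fun o => g o.1) hg0 hrel (fun P hP i j => dvd_sub (hdiv P hP i) (hdiv P hP j))
  -- the height of a quotient
  have hq : ∀ (i j : Fin q) (hi : pr (some i)) (hj : pr (some j)), R ⟨some i, hi⟩ ⟨some j, hj⟩ →
      hgt k (A i ⬝ᵥ x / A j ⬝ᵥ x) ≤ X0 (terms c) + X0 (terms c + 1) + C1 := by
    intro i j hi hj h
    have h1 := hRh _ _ h
    rw [← hX0] at h1
    simp only [g, Option.elim_some] at h1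
    have hci : c i ≠ 0 := hi.1
    have hcj : c j ≠ 0 := hj.1
    have hi2 : A i ⬝ᵥ x ≠ 0 := hi.2
    have hj2 : A j ⬝ᵥ x ≠ 0 := hj.2
    have h2 : (A i ⬝ᵥ x / A j ⬝ᵥ x) ^ e =
        (c i * (A i ⬝ᵥ x) ^ e / (c j * (A j ⬝ᵥ x) ^ e)) * (c j / c i) := by
      rw [div_pow]
      field_simp
    have h3 : hgt k ((A i ⬝ᵥ x / A j ⬝ᵥ x) ^ e) ≤ X0 s + C1 := by
      rw [h2]
      exact (hgt_mul_le _ _).trans (add_le_add h1 (hC1le _ _))
    rw [hgt_pow (div_ne_zero hi2 hj2)] at h3
    have h4 : (1 : ℤ) * hgt k (A i ⬝ᵥ x / A j ⬝ᵥ x) ≤ e * hgt k (A i ⬝ᵥ x / A j ⬝ᵥ x) :=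
      mul_le_mul_of_nonneg_right (by exact_mod_cast he0) (hgt_nonneg _)
    linarith
  refine ⟨fun i j => ∃ (hi : pr (some i)) (hj : pr (some j)), R ⟨some i, hi⟩ ⟨some j, hj⟩,
    fun i => ∃ (hi : pr (some i)) (h0 : pr none), R ⟨some i, hi⟩ ⟨none, h0⟩, ?_, ?_, ?_, ?_, ?_⟩
  · rintro i j ⟨hi, hj, h⟩
    exact ⟨hi.2, hj.2, hq i j hi hj h⟩
  · rintro i j ⟨hi, h0, h⟩ ⟨hj, _, h'⟩
    exact ⟨hi.2, hj.2, hq i j hi hj (hR.trans h (hR.symm h'))⟩
  · intro hf0
    by_contra hcon
    push Not at hcon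
    have h1 := hRs ⟨none, hf0⟩ {⟨none, hf0⟩} (by
      rintro ⟨o, ho⟩
      rw [Finset.mem_singleton]
      constructor
      · intro h; rw [h]; exact hR.refl _
      · intro h
        cases o with
        | none => rfl
        | some j => exact absurd (hR.symm h) (hcon j ho hf0))
    rw [Finset.sum_singleton] at h1
    exact hg0 ⟨none, hf0⟩ h1
  · rintro hf0 i ⟨-, h0, -⟩
    exact h0 hf0
  · intro T hT0 hT hTS
    let T' : Finset J := univ.filter fun o => ∃ j ∈ T, o.1 = some j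
    have hT' : ∀ o, o ∈ T' ↔ ∃ j ∈ T, o.1 = some j := fun o => by simp [T']
    have h1 := Pool.Agent.TH145.MF.sum_union R hR (fun o : J => g o.1) (fun a A hA => hRs a A hA) T' (by
      rintro ⟨o, ho⟩ hi ⟨o', ho'⟩ hij
      rw [hT'] at hi ⊢
      obtain ⟨i, hiT, hi⟩ := hi
      change o = some i at hi
      subst hi
      cases o' with
      | none => exact absurd ⟨ho, ho', hij⟩ (hTS i hiT)
      | some j => exact ⟨j, hT i hiT j ⟨ho, ho', hij⟩, rfl⟩)
    rw [← h1]
    symm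
    -- compare the sums
    have h2 : ∑ o ∈ T', g o.1 = ∑ o ∈ T.map Function.Embedding.some, g o := by
      refine (Finset.sum_map T' (Function.Embedding.subtype pr) g).symm.trans ?_
      apply Finset.sum_subset
      · intro o ho
        rw [Finset.mem_map] at ho ⊢
        obtain ⟨o', ho', rfl⟩ := ho
        obtain ⟨j, hj, hj'⟩ := (hT' o').1 ho'
        exact ⟨j, hj, hj'.symm⟩
      · intro o ho ho'
        apply hgz
        intro hpr
        apply ho'
        rw [Finset.mem_map] at ho ⊢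
        obtain ⟨j, hj, rfl⟩ := ho
        exact ⟨⟨some j, hpr⟩, (hT' _).2 ⟨j, hj, rfl⟩, rfl⟩
    rw [h2, Finset.sum_map]
    rfl

end Pool.Agent.TH145.MW
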