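import Pool.Agent.TH145.MW.Blk
import Pool.Agent.W602.RG.All

/-!
The classes of the terms of a sum of powers, for a derivation.
-/

set_option autoImplicit false

open Finset FF Pool.Agent.W603.LV Pool.Agent.W603.PV Pool.Agent.W602.RG

namespace Pool.Agent.TH145.MW

theorem terms_map {R R' : Type*} [Field R] [Field R'] (φ : R →+* R') {q : ℕ} (c : Fin q → R) :
    terms (fun j => φ (c j)) = terms c := by
  unfold terms
  congr 1
  ext j
  simp

theorem cls {L Ω E : Type} [Field L] [Field Ω] [Field E] [Algebra L E] [Algebra Ω E]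
    [CharZero L] [CharZero Ω] [IsAlgClosed Ω] [IsFF Ω E] (D : Derivation L E E)
    (hreg : ∀ P : Place Ω E, Reg0 D P ∨ Mov D P) {q e : ℕ} (he0 : 0 < e) (c : Fin q → L)
    (t : Fin q → E) (F : E) (hF : F = ∑ j, algebraMap L E (c j) * t j ^ e)
    (h : (F = 0 ∧ (terms c - 1) ^ 2 ≤ e) ∨
      (F ≠ 0 ∧ terms c ^ 2 ≤ e ∧ ∀ P : Place Ω E, Mov D P → (e : ℤ) ∣ P.ord F)) :
    ∃ Sp : Fin q → Prop,
      (∀ i j, Sp i → Sp j → t i ≠ 0 ∧ t j ≠ 0 ∧ Rel Ω D (t i ^ e) (t j ^ e)) ∧
      (F ≠ 0 → ∃ i, Sp i) ∧ (F = 0 → ∀ i, ¬ Sp i) ∧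
      ∀ T : Finset (Fin q), (∀ i ∈ T, t i ≠ 0) →
        (∀ i ∈ T, ∀ j, t j ≠ 0 → Rel Ω D (t i ^ e) (t j ^ e) → j ∈ T) → (∀ i ∈ T, ¬ Sp i) →
        ∑ j ∈ T, algebraMap L E (c j) * t j ^ e = 0 := by
  classical
  let M : Option (Fin q) → E := fun o => Option.elim o F fun j => t j ^ e
  let c' : Option (Fin q) → E := fun o => Option.elim o (-1) fun j => algebraMap L E (c j)
  let pr : Option (Fin q) → Prop := fun o => Option.elim o (F ≠ 0) fun j => c j ≠ 0 ∧ t j ≠ 0
  let J : Finset (Option (Fin q)) := univ.filter pr
  have hJ : ∀ o, o ∈ J ↔ pr o := fun o => by simp [J]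
  have hM0 : ∀ o ∈ J, M o ≠ 0 := by
    intro o ho
    rw [hJ] at ho
    cases o with
    | none => exact ho
    | some j => exact pow_ne_zero _ ho.2
  have hDc : ∀ o ∈ J, D (c' o) = 0 := by
    intro o _
    cases o with
    | none =>
      simp only [c', Option.elim_none]
      rw [map_neg, D.map_one_eq_zero, neg_zero]
    | some j => exact D.map_algebraMap _
  have hz : ∀ o, ¬ pr o → c' o * M o = 0 := by
    intro o ho
    cases o with
    | none =>
      simp only [pr, Option.elim_none, not_not] at ho
      simp only [M, Option.elim_none, ho, mul_zero]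
    | some j =>
      simp only [pr, Option.elim_some, not_and_or, not_not] at ho
      simp only [M, c', Option.elim_some]
      rcases ho with h | h
      · rw [h, map_zero, zero_mul]
      · rw [h, zero_pow he0.ne', mul_zero]
  have hsum : ∑ o ∈ J, c' o * M o = 0 := by
    rw [Finset.sum_filter_of_ne (fun o _ ho => by
      by_contra h
      exact ho (hz o h)), Fintype.sum_option]
    simp only [M, c', Option.elim_none, Option.elim_some]
    rw [← hF]
    ring
  have hterms := terms_eq c
  have hcard : (J.card - 1) ^ 2 ≤ e := by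
    have h1 : J.card ≤ (if F = 0 then 0 else 1) + terms c := by
      have h2 : J ⊆ (if F = 0 then ∅ else {none}) ∪
          (univ.filter fun j => c j ≠ 0).map Function.Embedding.some := by
        intro o ho
        rw [hJ] at ho
        rw [Finset.mem_union]
        cases o with
        | none =>
          left
          have h3 : F ≠ 0 := ho
          rw [if_neg h3]
          exact Finset.mem_singleton_self _
        | some j =>
          right
          exact Finset.mem_map.2 ⟨j, Finset.mem_filter.2 ⟨Finset.mem_univ _, ho.1⟩, rfl⟩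
      refine (Finset.card_le_card h2).trans ((Finset.card_union_le _ _).trans ?_)
      rw [Finset.card_map, ← hterms]
      refine Nat.add_le_add_right ?_ _
      split_ifs <;> simp
    rcases h with ⟨h2, h3⟩ | ⟨h2, h3, -⟩
    · rw [if_pos h2, zero_add] at h1
      exact (Nat.pow_le_pow_left (Nat.sub_le_sub_right h1 1) 2).trans h3
    · rw [if_neg h2] at h1
      exact (Nat.pow_le_pow_left (by omega) 2).trans h3
  have hdiv : ∀ P : Place Ω E, Mov D P → ∀ o ∈ J, (e : ℤ) ∣ P.ord (M o) := by
    intro P hP o ho
    rw [hJ] at ho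
    cases o with
    | none =>
      rcases h with ⟨h2, -⟩ | ⟨-, -, h2⟩
      · exact absurd h2 ho
      · exact h2 P hP
    | some j =>
      simp only [M, Option.elim_some]
      rw [P.ord_pow]
      exact dvd_mul_right _ _
  have key := fun (j0 : Option (Fin q)) (T : Finset (Option (Fin q))) => cls_all L Ω E
    (Option (Fin q)) D hreg J e he0 hcard M c' hM0 hDc hsum
    (fun P hP i hi j hj => dvd_sub (hdiv P hP i hi) (hdiv P hP j hj)) j0 T
  let Sp : Fin q → Prop := fun i => t i ≠ 0 ∧ F ≠ 0 ∧ Rel Ω D (t i ^ e) F
  refine ⟨Sp, ?_, ?_, ?_, ?_⟩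
  · rintro i j ⟨hi, -, h1⟩ ⟨hj, -, h2⟩
    exact ⟨hi, hj, h1.trans' h2.symm'⟩
  · intro hF0
    by_contra hcon
    push Not at hcon
    have h1 := key none {none} ((hJ _).2 hF0) (by
      intro o
      rw [Finset.mem_singleton]
      constructor
      · rintro rfl
        exact ⟨(hJ _).2 hF0, Rel.refl' D _⟩
      · rintro ⟨ho, hr⟩
        rw [hJ] at ho
        cases o with
        | none => rfl
        | some j => exact absurd ⟨ho.2, hF0, hr⟩ (hcon j))
    rw [Finset.sum_singleton] at h1
    simp only [M, c', Option.elim_none] at h1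
    apply hF0
    linear_combination -h1
  · rintro hF0 i ⟨-, h0, -⟩
    exact h0 hF0
  · intro T hT0 hT hTS
    let R' : Fin q → Fin q → Prop := fun i j => (t i = 0 ∧ t j = 0) ∨
      (t i ≠ 0 ∧ t j ≠ 0 ∧ Rel Ω D (t i ^ e) (t j ^ e))
    have hR' : Equivalence R' := by
      refine ⟨fun i => ?_, ?_, ?_⟩
      · by_cases h : t i = 0
        · exact Or.inl ⟨h, h⟩
        · exact Or.inr ⟨h, h, Rel.refl' D _⟩
      · rintro i j (⟨h1, h2⟩ | ⟨h1, h2, h3⟩)
        · exact Or.inl ⟨h2, h1⟩
        · exact Or.inr ⟨h2, h1, h3.symm'⟩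
      · rintro i j l (⟨h1, h2⟩ | ⟨h1, h2, h3⟩) (⟨h4, h5⟩ | ⟨h4, h5, h6⟩)
        · exact Or.inl ⟨h1, h5⟩
        · exact absurd h2 h4
        · exact absurd h4 h2
        · exact Or.inr ⟨h1, h5, h3.trans' h6⟩
    have h1 := Pool.Agent.TH145.MF.sum_union R' hR'
      (fun j => if Sp j ∨ t j = 0 then 0 else algebraMap L E (c j) * t j ^ e) (by
        intro a A hA
        by_cases ha : Sp a ∨ t a = 0
        · apply Finset.sum_eq_zero
          intro j hj
          rw [if_pos]
          rcases (hA j).1 hj with ⟨h2, h3⟩ | ⟨h2, h3, h4⟩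
          · exact Or.inr h3
          · left
            obtain ⟨-, h5, h6⟩ := ha.resolve_right h2
            exact ⟨h3, h5, h4.symm'.trans' h6⟩
        · push Not at ha
          obtain ⟨haS, hat⟩ := ha
          have hA0 : ∀ j ∈ A, t j ≠ 0 ∧ Rel Ω D (t a ^ e) (t j ^ e) := by
            intro j hj
            rcases (hA j).1 hj with ⟨h2, -⟩ | ⟨-, h3, h4⟩
            · exact absurd h2 hat
            · exact ⟨h3, h4⟩
          have hAS : ∀ j ∈ A, ¬ Sp j := by
            rintro j hj ⟨h3, h4, h5⟩
            exact haS ⟨hat, h4, (hA0 j hj).2.trans' h5⟩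
          have h2 : ∑ j ∈ A, (if Sp j ∨ t j = 0 then 0 else algebraMap L E (c j) * t j ^ e) =
              ∑ j ∈ A, algebraMap L E (c j) * t j ^ e := by
            refine Finset.sum_congr rfl fun j hj => ?_
            rw [if_neg]
            rintro (h3 | h3)
            · exact hAS j hj h3
            · exact (hA0 j hj).1 h3
          rw [h2]
          by_cases hex : ∃ j2 ∈ A, c j2 ≠ 0
          · obtain ⟨j2, hj2, hc2⟩ := hex
            have h3 := key (some j2) ((A.filter fun j => c j ≠ 0).map Function.Embedding.some)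
              ((hJ _).2 ⟨hc2, (hA0 j2 hj2).1⟩) (by
                intro o
                rw [hJ]
                cases o with
                | none =>
                  constructor
                  · intro h4
                    rw [Finset.mem_map] at h4
                    obtain ⟨j, -, hj⟩ := h4
                    exact absurd hj (by simp)
                  · rintro ⟨h4, h5⟩
                    exact absurd ⟨(hA0 j2 hj2).1, h4, h5.symm'⟩ (hAS j2 hj2)
                | some j =>
                  constructor
                  · intro h4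
                    rw [Finset.mem_map] at h4
                    obtain ⟨j', hj', hj⟩ := h4
                    obtain rfl : j' = j := Option.some.inj hj
                    obtain ⟨h5, h6⟩ := Finset.mem_filter.1 hj'
                    exact ⟨⟨h6, (hA0 _ h5).1⟩, (hA0 _ h5).2.symm'.trans' (hA0 j2 hj2).2⟩
                  · rintro ⟨⟨h4, h5⟩, h6⟩
                    rw [Finset.mem_map]
                    refine ⟨j, Finset.mem_filter.2 ⟨(hA j).2 (Or.inr ⟨hat, h5, ?_⟩), h4⟩, rfl⟩
                    exact (hA0 j2 hj2).2.trans' h6.symm')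
            rw [Finset.sum_map] at h3
            rw [← h3]
            symm
            apply Finset.sum_subset (Finset.filter_subset _ _)
            intro j hj hj'
            have h4 : c j = 0 := by
              by_contra h5
              exact hj' (Finset.mem_filter.2 ⟨hj, h5⟩)
            change algebraMap L E (c j) * t j ^ e = 0
            rw [h4, map_zero, zero_mul]
          · push Not at hex
            apply Finset.sum_eq_zero
            intro j hj
            rw [hex j hj, map_zero, zero_mul]) T (by
        intro i hi j hij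
        rcases hij with ⟨h2, -⟩ | ⟨-, h3, h4⟩
        · exact absurd h2 (hT0 i hi)
        · exact hT i hi j h3 h4)
    rw [← h1]
    refine Finset.sum_congr rfl fun j hj => ?_
    rw [if_neg]
    rintro (h3 | h3)
    · exact hTS j hj h3
    · exact hT0 j hj h3

end Pool.Agent.TH145.MW
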