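import Pool.Agent.TH145.MF.Pencil
import Pool.Agent.W603.LV.Root
import Pool.Agent.W603.PV.Ext

/-!
The height of the solution of a homogeneous linear system.
-/

set_option autoImplicit false

open Finset FF Pool.Agent.W603.LV Pool.Agent.W603.PV MvPolynomial

namespace Pool.Agent.TH145.MW

variable {k L : Type} [Field k] [Field L] [Algebra k L] [CharZero k] [IsFF k L]

theorem hgt_poly {ρ : Type*} [Fintype ρ] (c : MvPolynomial ρ k) (r : ρ → L) {H : ℤ}
    (hr : ∀ a, hgt k (r a) ≤ H) :
    hgt k (aeval r c) ≤ c.totalDegree * (Fintype.card ρ * H) := by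
  refine (hgt_mvpoly (k := k) r c).trans ?_
  refine mul_le_mul_of_nonneg_left ?_ (by positivity)
  refine (Finset.sum_le_sum fun a _ => hr a).trans ?_
  rw [Finset.sum_const, nsmul_eq_mul, Finset.card_univ]

theorem hgt_add_le (u v : L) : hgt k (u + v) ≤ hgt k u + hgt k v := by
  have h1 := hgt_mvpoly (k := k) (K := L) (ρ := Fin 2) ![u, v] (X 0 + X 1)
  have h2 : aeval (R := k) ![u, v] (X 0 + X 1 : MvPolynomial (Fin 2) k) = u + v := by
    simp
  rw [h2, Fin.sum_univ_two] at h1
  have h3 : (X 0 + X 1 : MvPolynomial (Fin 2) k).totalDegree ≤ 1 := by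
    refine (totalDegree_add _ _).trans ?_
    rw [totalDegree_X, totalDegree_X, max_self]
  have h4 : 0 ≤ hgt k u := hgt_nonneg u
  have h5 : 0 ≤ hgt k v := hgt_nonneg v
  have h6 : (((X 0 + X 1 : MvPolynomial (Fin 2) k).totalDegree : ℕ) : ℤ) ≤ 1 := by exact_mod_cast h3
  simp only [Matrix.cons_val_zero, Matrix.cons_val_one] at h1
  calc hgt k (u + v) ≤ _ := h1
    _ ≤ 1 * (hgt k u + hgt k v) := mul_le_mul_of_nonneg_right h6 (by linarith)
    _ = hgt k u + hgt k v := one_mul _

omit [CharZero k] [IsFF k L] in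
theorem hgt_neg (u : L) : hgt k (-u) = hgt k u :=
  hgt_congr fun P => P.ord_neg u

theorem hgt_mul_le (u v : L) : hgt k (u * v) ≤ hgt k u + hgt k v := by
  by_cases hu : u = 0
  · rw [hu, zero_mul, hgt_zero, zero_add]; exact hgt_nonneg v
  by_cases hv : v = 0
  · rw [hv, mul_zero, hgt_zero, add_zero]; exact hgt_nonneg u
  exact hgt_mul hu hv

theorem hgt_sum_le {α : Type*} (s : Finset α) (f : α → L) :
    hgt k (∑ i ∈ s, f i) ≤ ∑ i ∈ s, hgt k (f i) := by
  classical
  induction s using Finset.induction_on with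
  | empty => rw [Finset.sum_empty, Finset.sum_empty, hgt_zero]
  | insert a s ha ih =>
    rw [Finset.sum_insert ha, Finset.sum_insert ha]
    exact (hgt_add_le _ _).trans (by linarith)

theorem hgt_det (k L : Type) [Field k] [Field L] [Algebra k L] [CharZero k] [IsFF k L] (N : ℕ) :
    ∃ C : ℤ, 0 ≤ C ∧ ∀ (M : Matrix (Fin N) (Fin N) L) (H : ℤ),
      (∀ i j, hgt k (M i j) ≤ H) → hgt k M.det ≤ C * H := by
  classical
  obtain ⟨c, hc⟩ : ∃ c : MvPolynomial (Fin N × Fin N) k, c =
    (Matrix.mvPolynomialX (Fin N) (Fin N) k).det := ⟨_, rfl⟩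
  refine ⟨c.totalDegree * (Fintype.card (Fin N × Fin N) : ℤ), by positivity, ?_⟩
  intro M H hM
  have h1 : M.det = aeval (fun p : Fin N × Fin N => M p.1 p.2) c := by
    rw [hc, AlgHom.map_det, Matrix.mvPolynomialX_mapMatrix_aeval]
  rw [h1, mul_assoc]
  exact hgt_poly c _ fun p => hM p.1 p.2

/-- The coordinates of the point that spans the kernel of a matrix. -/
theorem cramer (k L : Type) [Field k] [Field L] [Algebra k L] [CharZero k] [IsFF k L]
    [IsAlgClosed k] (n : ℕ) :
    ∃ C : ℤ, 0 ≤ C ∧ ∀ (ρ : Type) (N : ρ → Fin (n + 1) → L) (x : Fin (n + 1) → L) (H : ℤ),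
      0 ≤ H → (∀ r i, hgt k (N r i) ≤ H) → (∀ r, N r ⬝ᵥ x = 0) →
      (∀ y, (∀ r, N r ⬝ᵥ y = 0) → ∃ c : L, y = c • x) →
      ∀ i l, x i ≠ 0 → hgt k (x l / x i) ≤ C * H := by
  classical
  obtain ⟨C, hC0, hC⟩ := hgt_det k L (n + 1)
  refine ⟨(n + 2) * C, by positivity, ?_⟩
  intro ρ N x H hH hN hx hker i l hi
  let N' : Option ρ → Fin (n + 1) → L := fun r => Option.elim r (Pi.single i 1) N
  obtain ⟨σ, hσ⟩ : ∃ σ : Fin (n + 1) → Option ρ, (Matrix.of fun a b => N' (σ a) b).det ≠ 0 := by
    by_contra hcon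
    push Not at hcon
    obtain ⟨v, hv0, hv⟩ := Pool.Agent.TH145.MF.kernel_of_minors N' hcon
    obtain ⟨c, rfl⟩ := hker v fun r => hv (some r)
    have h1 := hv none
    simp only [N', Option.elim_none, single_dotProduct, one_mul, Pi.smul_apply, smul_eq_mul] at h1
    rcases mul_eq_zero.1 h1 with h2 | h2
    · apply hv0
      rw [h2, zero_smul]
    · exact hi h2
  obtain ⟨M, hM⟩ : ∃ M : Matrix (Fin (n + 1)) (Fin (n + 1)) L, M =
    Matrix.of fun a b => N' (σ a) b := ⟨_, rfl⟩
  rw [← hM] at hσ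
  have hs1 : ∀ a b : Fin (n + 1), hgt k ((Pi.single a 1 : Fin (n + 1) → L) b) = 0 := by
    intro a b
    by_cases h : b = a
    · rw [h, Pi.single_eq_same, hgt_one]
    · rw [Pi.single_eq_of_ne h, hgt_zero]
  have hMH : ∀ a b, hgt k (M a b) ≤ H := by
    intro a b
    rw [hM]
    simp only [Matrix.of_apply, N']
    cases h : σ a with
    | none => simp only [Option.elim_none]; rw [hs1]; exact hH
    | some r => simp only [Option.elim_some]; exact hN r b
  have hdet : hgt k M.det ≤ C * H := hC M H hMH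
  have hadj : ∀ a b, hgt k (M.adjugate a b) ≤ C * H := by
    intro a b
    rw [Matrix.adjugate_apply]
    apply hC
    intro c d
    rw [Matrix.updateRow_apply]
    split_ifs with h
    · rw [hs1]; exact hH
    · exact hMH c d
  have hMx : M.mulVec x = fun a => if σ a = none then x i else 0 := by
    funext a
    change (fun b => M a b) ⬝ᵥ x = _
    rw [hM]
    simp only [Matrix.of_apply, N']
    cases h : σ a with
    | none => simp only [Option.elim_none, if_true]; rw [single_dotProduct, one_mul]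
    | some r =>
      simp only [Option.elim_some]
      rw [if_neg (by simp)]
      exact hx r
  have h1 : M.det • x = M.adjugate.mulVec (M.mulVec x) := by
    rw [Matrix.mulVec_mulVec, Matrix.adjugate_mul, Matrix.smul_mulVec, Matrix.one_mulVec]
  have h2 := congrFun h1 l
  rw [hMx] at h2
  simp only [Pi.smul_apply, smul_eq_mul, Matrix.mulVec, dotProduct] at h2
  have h3 : x l / x i = (∑ a, if σ a = none then M.adjugate l a else 0) / M.det := by
    rw [div_eq_div_iff hi hσ, mul_comm, h2, Finset.sum_mul]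
    refine Finset.sum_congr rfl fun a _ => ?_
    split_ifs <;> simp
  rw [h3, div_eq_mul_inv]
  refine (hgt_mul_le _ _).trans ?_
  rw [hgt_inv]
  have h4 : hgt k (∑ a, if σ a = none then M.adjugate l a else 0) ≤ (n + 1) * (C * H) := by
    refine (hgt_sum_le _ _).trans ?_
    refine (Finset.sum_le_sum (g := fun _ => C * H) fun a _ => ?_).trans ?_
    · split_ifs
      · exact hadj l a
      · rw [hgt_zero]; positivity
    · rw [Finset.sum_const, nsmul_eq_mul, Finset.card_univ, Fintype.card_fin]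
      push_cast
      exact le_rfl
  have h5 : (((n : ℤ) + 2) * C) * H = (n + 1) * (C * H) + C * H := by ring
  rw [h5]
  linarith

end Pool.Agent.TH145.MW
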