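import Pool.Agent.TH145.MW.Cls
import Pool.Agent.TH145.MF.Rig

/-!
Sequences of functions of bounded degree that are regular outside a finite set.
-/

set_option autoImplicit false

open Finset FF Pool.Agent.W603.LV Pool.Agent.W603.PV Pool.Agent.W602.RG MvPolynomial

namespace Pool.Agent.TH145.MW

theorem neg_ord_le_hgt {k L : Type} [Field k] [Field L] [Algebra k L] [CharZero k] [IsFF k L]
    (P : Place k L) (f : L) : - P.ord f ≤ hgt k f := by
  classical
  obtain ⟨T, hT⟩ := exists_supp (k := k) (Finset.univ : Finset (Fin 1)) ![f]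
  have h1 : ∀ P : Place k L, P.ord f ≠ 0 → P ∈ T := fun P => hT 0 (Finset.mem_univ _) P
  rw [hgt_finset _ T h1]
  by_cases hP : P ∈ T
  · have h2 := Finset.single_le_sum (f := fun P : Place k L => max (-P.ord f) 0)
      (fun _ _ => le_max_right _ _) hP
    exact (le_max_left _ _).trans h2
  · have h3 : P.ord f = 0 := by
      by_contra h
      exact hP (h1 P h)
    rw [h3, neg_zero]
    exact Finset.sum_nonneg fun _ _ => le_max_right _ _

theorem hgt_pow_le {k L : Type} [Field k] [Field L] [Algebra k L] [CharZero k] [IsFF k L] (f : L)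
    (n : ℕ) : hgt k (f ^ n) ≤ n * hgt k f := by
  by_cases hf : f = 0
  · rw [hf, hgt_zero, mul_zero]
    by_cases hn : n = 0
    · rw [hn, pow_zero, hgt_one]
    · rw [zero_pow hn, hgt_zero]
  · rw [hgt_pow hf]

theorem hgt_W {k L : Type} [Field k] [Field L] [Algebra k L] [CharZero k] [IsFF k L] {q n : ℕ}
    (A : Fin q → Fin (n + 1) → L) (c : Fin q → L) (e : ℕ) (B : ℤ) :
    ∃ C : ℤ, ∀ x : Fin (n + 1) → L, (∀ l, hgt k (x l) ≤ B) → hgt k (W A c e x) ≤ C := by
  refine ⟨∑ j, (hgt k (c j) + e * ∑ l, (hgt k (A j l) + B)), ?_⟩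
  intro x hx
  unfold W
  refine (hgt_sum_le _ _).trans (Finset.sum_le_sum fun j _ => ?_)
  refine (hgt_mul_le _ _).trans (add_le_add le_rfl ?_)
  refine (hgt_pow_le _ _).trans (mul_le_mul_of_nonneg_left ?_ (by positivity))
  refine (hgt_sum_le _ _).trans (Finset.sum_le_sum fun l _ => ?_)
  exact (hgt_mul_le _ _).trans (add_le_add le_rfl (hx l))

theorem mk_mov (k L : Type) [Field k] [Field L] [Algebra k L] [IsAlgClosed k] [CharZero k]
    [IsFF k L] (S : Finset (Place k L)) (B : ℤ) (u : ℕ → L)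
    (hu : ∀ m, hgt k (u m) ≤ B ∧ ∀ P ∉ S, u m = 0 ∨ 0 ≤ P.ord (u m)) :
    ∃ g : EE k L, (g : Om L) = Om.mk u ∧ ∀ P : Place (Om k) (EE k L),
      (∀ l : L, P.ord (algebraMap L (EE k L) l) = 0) → Ge P 0 g := by
  classical
  obtain ⟨A, hA⟩ : ∃ A : Place k L →₀ ℤ, A = ∑ P ∈ S, Finsupp.single P (max B 0) := ⟨_, rfl⟩
  have hAP : ∀ P ∈ S, A P = max B 0 := by
    intro P hP
    rw [hA, Finsupp.finsetSum_apply, Finset.sum_eq_single P]
    · rw [Finsupp.single_eq_same]
    · intro Q _ hQ
      rw [Finsupp.single_eq_of_ne (Ne.symm hQ)]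
    · intro h; exact absurd hP h
  have hAn : ∀ P ∉ S, A P = 0 := by
    intro P hP
    rw [hA, Finsupp.finsetSum_apply, Finset.sum_eq_zero]
    intro Q hQ
    rw [Finsupp.single_eq_of_ne]
    rintro rfl
    exact hP hQ
  have huA : ∀ m, u m ∈ LL A := by
    intro m
    rw [mem_LL]
    by_cases h0 : u m = 0
    · exact Or.inl h0
    · right
      intro P
      by_cases hP : P ∈ S
      · rw [hAP P hP]
        have h1 := neg_ord_le_hgt P (u m)
        have h2 := (hu m).1
        have h3 := le_max_left B 0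
        linarith
      · rw [hAn P hP, neg_zero]
        exact ((hu m).2 P hP).resolve_left h0
  let b := Module.finBasis k (LL A)
  let a : Fin (Module.finrank k (LL A)) → ℕ → k := fun i m => b.repr ⟨u m, huA m⟩ i
  have h1 : ∀ m, u m = ∑ i, algebraMap k L (a i m) * (b i : L) := by
    intro m
    have h2 := b.sum_repr ⟨u m, huA m⟩
    have h3 := congrArg (fun x : LL A => (x : L)) h2
    simp only [Submodule.coe_sum, Submodule.coe_smul, Algebra.smul_def] at h3
    exact h3.symm
  refine ⟨∑ i, algebraMap (Om k) (EE k L) (Om.mk (a i)) * algebraMap L (EE k L) (b i : L), ?_, ?_⟩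
  · have h5 : u = fun m => ∑ i, algebraMap k L (a i m) * (b i : L) := funext h1
    rw [h5, Pool.Agent.W61.RG.GSP.mk_sum Finset.univ
      (fun i m => algebraMap k L (a i m) * (b i : L)), ← Subfield.coe_subtype, map_sum]
    refine Finset.sum_congr rfl fun i _ => ?_
    rw [map_mul, Subfield.coe_subtype, coe_algebraMap_L, coe_algebraMap_Om, mapOm_mk, cst_apply,
      Om.mk_mul]
  · intro P hP
    refine Ge.sum _ _ fun i _ => ?_
    have h2 := (Ge.const (P := P) (Om.mk (a i))).mul
      (Or.inr (hP (b i : L)).symm.le : Ge P 0 (algebraMap L (EE k L) (b i : L)))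
    simpa using h2

section coe

variable {k L : Type} [Field k] [Field L] [Algebra k L] {q n : ℕ}

theorem coe_dot (a : Fin (n + 1) → L) (g : ℕ → Fin (n + 1) → L) (f : Fin (n + 1) → EE k L)
    (hg : ∀ l, (f l : Om L) = Om.mk fun m => g m l) :
    ((∑ l, algebraMap L (EE k L) (a l) * f l : EE k L) : Om L) = Om.mk fun m => a ⬝ᵥ g m := by
  rw [← Subfield.coe_subtype, map_sum]
  have h1 : (Om.mk fun m => a ⬝ᵥ g m) = ∑ l, Om.mk fun m => a l * g m l :=
    Pool.Agent.W61.RG.GSP.mk_sum Finset.univ (fun l m => a l * g m l)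
  rw [h1]
  refine Finset.sum_congr rfl fun l _ => ?_
  rw [map_mul, Subfield.coe_subtype, coe_algebraMap_L, hg l]
  rfl

theorem coe_sumT (T : Finset (Fin q)) (c : Fin q → L) (g : ℕ → Fin q → L) (t : Fin q → EE k L)
    (hg : ∀ j, (t j : Om L) = Om.mk fun m => g m j) (e : ℕ) :
    ((∑ j ∈ T, algebraMap L (EE k L) (c j) * t j ^ e : EE k L) : Om L) =
      Om.mk fun m => ∑ j ∈ T, c j * g m j ^ e := by
  rw [← Subfield.coe_subtype, map_sum, Pool.Agent.W61.RG.GSP.mk_sum T (fun j m => c j * g m j ^ e)]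
  refine Finset.sum_congr rfl fun j _ => ?_
  rw [map_mul, map_pow, Subfield.coe_subtype, coe_algebraMap_L, hg j]
  have h1 : (Om.mk fun m => g m j) ^ e = Om.mk fun m => g m j ^ e := by
    rw [← Pool.Agent.TH145.MF.mkHom_apply, ← Pool.Agent.TH145.MF.mkHom_apply, ← map_pow]
    rfl
  rw [h1]
  rfl

end coe

end Pool.Agent.TH145.MW
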